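import Mathlib

section

section

set_option autoImplicit false
set_option linter.unusedSectionVars false

namespace Pool.Agent.Lib.MP_191c59_gt.Core

open Finset Real

noncomputable section

section Gibbs
variable {I : Type*} [Fintype I]

/-- Entropy. -/
def ent (p : I → ℝ) : ℝ := ∑ i, Real.negMulLog (p i)

lemma ent_nonneg {p : I → ℝ} (h0 : ∀ i, 0 ≤ p i) (h1 : ∑ i, p i = 1) : 0 ≤ ent p := by
  apply Finset.sum_nonneg
  intro i _
  apply Real.negMulLog_nonneg (h0 i)
  rw [← h1]
  exact Finset.single_le_sum (fun i _ => h0 i) (Finset.mem_univ i)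

/-- The Gibbs variational inequality. -/
lemma gibbs {p : I → ℝ} (h0 : ∀ i, 0 ≤ p i) (h1 : ∑ i, p i = 1) (f : I → ℝ) :
    ∑ i, p i * f i + ent p ≤ Real.log (∑ i, Real.exp (f i)) := by
  have hne : (univ : Finset I).Nonempty := by
    by_contra h
    rw [Finset.not_nonempty_iff_eq_empty] at h
    rw [h] at h1
    simp at h1
  set Z := ∑ i, Real.exp (f i) with hZ
  have hZpos : 0 < Z := Finset.sum_pos (fun i _ => Real.exp_pos _) hne
  have key : ∀ i, p i * f i + Real.negMulLog (p i) - p i * Real.log Z ≤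
      Real.exp (f i) / Z - p i := by
    intro i
    have hq : 0 < Real.exp (f i) / Z := div_pos (Real.exp_pos _) hZpos
    rcases (h0 i).eq_or_lt with h | h
    · rw [← h]
      simp only [zero_mul, Real.negMulLog_zero, add_zero, sub_zero]
      exact hq.le
    · have h2 : Real.log (Real.exp (f i) / Z / p i) ≤ Real.exp (f i) / Z / p i - 1 :=
        Real.log_le_sub_one_of_pos (div_pos hq h)
      rw [Real.log_div hq.ne' h.ne', Real.log_div (Real.exp_pos _).ne' hZpos.ne',
        Real.log_exp] at h2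
      have h3 : p i * (f i - Real.log Z - Real.log (p i)) ≤
          p i * (Real.exp (f i) / Z / p i - 1) := mul_le_mul_of_nonneg_left h2 h.le
      have h4 : p i * (Real.exp (f i) / Z / p i - 1) = Real.exp (f i) / Z - p i := by
        field_simp
      rw [h4] at h3
      simp only [Real.negMulLog]
      linarith
  have hsum := Finset.sum_le_sum (fun i (_ : i ∈ univ) => key i)
  rw [Finset.sum_sub_distrib, Finset.sum_sub_distrib, Finset.sum_add_distrib, ← Finset.sum_mul,
    ← Finset.sum_div, h1, ← hZ, div_self hZpos.ne'] at hsum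
  unfold ent
  linarith

lemma ent_le {p : I → ℝ} (h0 : ∀ i, 0 ≤ p i) (h1 : ∑ i, p i = 1) :
    ent p ≤ Real.log (Fintype.card I) := by
  have := gibbs h0 h1 (fun _ => 0)
  simpa using this

end Gibbs

section Map
variable {I J : Type*} [Fintype I] [Fintype J] (R : I → J → Prop)

open scoped Classical in
/-- The 0/1 incidence matrix. -/
def inc (i : I) (j : J) : ℝ := if R i j then 1 else 0

lemma inc_nonneg (i : I) (j : J) : 0 ≤ inc R i j := by
  unfold inc; split_ifs <;> norm_num

lemma inc_le_one (i : I) (j : J) : inc R i j ≤ 1 := by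
  unfold inc; split_ifs <;> norm_num

lemma inc_sq (i : I) (j : J) : inc R i j ^ 2 = inc R i j := by
  unfold inc; split_ifs <;> norm_num

/-- Energies. -/
def en (w : EuclideanSpace ℝ I) (j : J) : ℝ := ∑ i, inc R i j * w i ^ 2

/-- Partition function. -/
def pf (w : EuclideanSpace ℝ I) : ℝ := ∑ j, Real.exp (en R w j)

/-- Gibbs measure. -/
def gm (w : EuclideanSpace ℝ I) (j : J) : ℝ := Real.exp (en R w j) / pf R w

/-- The map. -/
def sm (c : ℝ) (w : EuclideanSpace ℝ I) : EuclideanSpace ℝ J :=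
  WithLp.toLp 2 fun j => Real.sqrt c * Real.exp (en R w j / 2 - Real.log (pf R w) / 2)

lemma sm_apply (c : ℝ) (w : EuclideanSpace ℝ I) (j : J) :
    sm R c w j = Real.sqrt c * Real.exp (en R w j / 2 - Real.log (pf R w) / 2) := rfl

lemma continuous_en (j : J) : Continuous (fun w => en R w j) := by
  unfold en
  fun_prop

lemma continuous_pf : Continuous (pf R) := by
  unfold pf
  exact continuous_finsetSum _ fun j _ => Real.continuous_exp.comp (continuous_en R j)

variable [Nonempty J]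

lemma pf_pos (w : EuclideanSpace ℝ I) : 0 < pf R w :=
  Finset.sum_pos (fun _ _ => Real.exp_pos _) Finset.univ_nonempty

lemma gm_nonneg (w : EuclideanSpace ℝ I) (j : J) : 0 ≤ gm R w j :=
  div_nonneg (Real.exp_pos _).le (pf_pos R w).le

lemma sum_gm (w : EuclideanSpace ℝ I) : ∑ j, gm R w j = 1 := by
  unfold gm
  rw [← Finset.sum_div]
  exact div_self (pf_pos R w).ne'

lemma sm_sq {c : ℝ} (hc : 0 ≤ c) (w : EuclideanSpace ℝ I) (j : J) :
    sm R c w j ^ 2 = c * gm R w j := by
  rw [sm_apply, mul_pow, Real.sq_sqrt hc, ← Real.exp_nat_mul]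
  unfold gm
  congr 1
  rw [← Real.exp_log (pf_pos R w), ← Real.exp_sub, Real.log_exp]
  congr 1
  push_cast
  ring

lemma continuous_sm (c : ℝ) : Continuous (sm R c) := by
  unfold sm
  apply (PiLp.continuous_toLp 2 _).comp
  apply continuous_pi
  intro j
  apply continuous_const.mul
  apply Real.continuous_exp.comp
  apply ((continuous_en R j).div_const _).sub
  exact ((continuous_pf R).log (fun w => (pf_pos R w).ne')).div_const _

lemma log_gm (w : EuclideanSpace ℝ I) (j : J) :
    Real.log (gm R w j) = en R w j - Real.log (pf R w) := by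
  unfold gm
  rw [Real.log_div (Real.exp_pos _).ne' (pf_pos R w).ne', Real.log_exp]

/-- The Gibbs identity. -/
lemma gibbs_eq (w : EuclideanSpace ℝ I) :
    ∑ j, gm R w j * en R w j + ent (gm R w) = Real.log (pf R w) := by
  unfold ent
  rw [← Finset.sum_add_distrib]
  have : ∀ j, gm R w j * en R w j + Real.negMulLog (gm R w j) =
      gm R w j * Real.log (pf R w) := by
    intro j
    simp only [Real.negMulLog, log_gm]
    ring
  simp_rw [this]
  rw [← Finset.sum_mul, sum_gm, one_mul]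

/-- The potential. -/
def pot (b c : ℝ) (w : EuclideanSpace ℝ I) : ℝ :=
  b⁻¹ * Real.log (pf R w) + c⁻¹ * ent (fun i => w i ^ 2 / b)

/-- The forward invariant region. -/
def reg (b c : ℝ) : Set (EuclideanSpace ℝ I) :=
  {w | ∑ i, w i ^ 2 = b ∧ 1 ≤ pot R b c w}

lemma continuous_ent : Continuous (ent : (I → ℝ) → ℝ) := by
  unfold ent
  exact continuous_finsetSum _ fun i _ => Real.continuous_negMulLog.comp (continuous_apply i)

lemma continuous_pot (b c : ℝ) : Continuous (pot R b c) := by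
  unfold pot
  apply Continuous.add
  · exact continuous_const.mul ((continuous_pf R).log (fun w => (pf_pos R w).ne'))
  · apply continuous_const.mul
    apply continuous_ent.comp
    apply continuous_pi
    intro i
    fun_prop

lemma isCompact_reg (b c : ℝ) : IsCompact (reg R b c) := by
  have h1 : IsClosed (reg R b c) := by
    apply IsClosed.inter
    · exact isClosed_eq (by fun_prop) continuous_const
    · exact isClosed_le continuous_const (continuous_pot R b c)
  apply IsCompact.of_isClosed_subset (isCompact_closedBall (0 : EuclideanSpace ℝ I)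
    (Real.sqrt b)) h1
  intro w hw
  rw [mem_closedBall_zero_iff, EuclideanSpace.norm_eq]
  apply Real.sqrt_le_sqrt
  rw [← hw.1]
  apply le_of_eq
  apply Finset.sum_congr rfl
  intro i _
  simp

variable {R}

lemma prob_of_mem_reg {b c : ℝ} (hb : 0 < b) {w : EuclideanSpace ℝ I} (hw : w ∈ reg R b c) :
    (∀ i, 0 ≤ w i ^ 2 / b) ∧ ∑ i, w i ^ 2 / b = 1 := by
  refine ⟨fun i => by positivity, ?_⟩
  rw [← Finset.sum_div, hw.1, div_self hb.ne']

/-- The defect bound: the average non-incidence is small on the region. -/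
lemma defect {b c : ℝ} (hb : 0 < b) (hc : 0 < c) {w : EuclideanSpace ℝ I}
    (hw : w ∈ reg R b c) :
    b - (b * Real.log (Fintype.card I) / c + Real.log (Fintype.card J)) ≤
      ∑ j, gm R w j * en R w j := by
  obtain ⟨hp0, hp1⟩ := prob_of_mem_reg hb hw
  have h1 := gibbs_eq R w
  have h2 := ent_le (gm_nonneg R w) (sum_gm R w)
  have h3 := ent_le hp0 hp1
  have h4 := hw.2
  unfold pot at h4
  have h5 : b * 1 ≤ b * (b⁻¹ * Real.log (pf R w) + c⁻¹ * ent (fun i => w i ^ 2 / b)) :=
    mul_le_mul_of_nonneg_left h4 hb.le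
  rw [mul_add, ← mul_assoc, mul_inv_cancel₀ hb.ne', one_mul] at h5
  have h6 : b * (c⁻¹ * ent (fun i => w i ^ 2 / b)) ≤ b * Real.log (Fintype.card I) / c := by
    rw [mul_div_assoc]
    apply mul_le_mul_of_nonneg_left _ hb.le
    rw [div_eq_inv_mul]
    exact mul_le_mul_of_nonneg_left h3 (inv_pos.2 hc).le
  linarith

lemma inc_flip (i : I) (j : J) : inc (flip R) j i = inc R i j := rfl

lemma sum_gm_en (b : ℝ) (w : EuclideanSpace ℝ I) (c : ℝ) :
    ∑ i, w i ^ 2 / b * (c * ∑ j, inc R i j * gm R w j) =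
      c / b * ∑ j, gm R w j * en R w j := by
  unfold en
  simp_rw [Finset.mul_sum]
  rw [Finset.sum_comm]
  apply Finset.sum_congr rfl
  intro j _
  apply Finset.sum_congr rfl
  intro i _
  ring

/-- Forward invariance. -/
lemma sm_mem_reg [Nonempty I] {b c : ℝ} (hb : 0 < b) (hc : 0 < c) {w : EuclideanSpace ℝ I}
    (hw : w ∈ reg R b c) : sm R c w ∈ reg (flip R) c b := by
  obtain ⟨hp0, hp1⟩ := prob_of_mem_reg hb hw
  have hsq : ∀ j, sm R c w j ^ 2 = c * gm R w j := sm_sq R hc.le w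
  constructor
  · simp_rw [hsq]
    rw [← Finset.mul_sum, sum_gm, mul_one]
  · have hdiv : (fun j => sm R c w j ^ 2 / c) = gm R w := by
      funext j
      rw [hsq, mul_div_cancel_left₀ _ hc.ne']
    have hen : ∀ i, en (flip R) (sm R c w) i = c * ∑ j, inc R i j * gm R w j := by
      intro i
      unfold en
      rw [Finset.mul_sum]
      apply Finset.sum_congr rfl
      intro j _
      rw [hsq, inc_flip]
      ring
    have h1 := gibbs hp0 hp1 (fun i => c * ∑ j, inc R i j * gm R w j)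
    rw [sum_gm_en] at h1
    have h2 := gibbs_eq R w
    have h3 := hw.2
    unfold pot at h3 ⊢
    rw [hdiv]
    have h4 : pf (flip R) (sm R c w) = ∑ i, Real.exp (c * ∑ j, inc R i j * gm R w j) := by
      unfold pf
      simp_rw [hen]
    rw [h4]
    have h5 := mul_le_mul_of_nonneg_left h1 (inv_pos.2 hc).le
    have h6 : c⁻¹ * (c / b * ∑ j, gm R w j * en R w j) = b⁻¹ * ∑ j, gm R w j * en R w j := by
      field_simp
    rw [mul_add, h6] at h5
    have h7 : b⁻¹ * Real.log (pf R w) = b⁻¹ * (∑ j, gm R w j * en R w j) +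
        b⁻¹ * ent (gm R w) := by
      rw [← h2, mul_add]
    linarith

/-- The derivative matrix. -/
def dm (R : I → J → Prop) (c : ℝ) (w : EuclideanSpace ℝ I) (i : I) (j : J) : ℝ :=
  sm R c w j * (w i * (inc R i j - ∑ j', gm R w j' * inc R i j'))

lemma dm_hs {b c : ℝ} (hb : 0 < b) (hc : 0 < c) {w : EuclideanSpace ℝ I} (hw : w ∈ reg R b c) :
    ∑ j, ∑ i, dm R c w i j ^ 2 ≤
      b * Real.log (Fintype.card I) + c * Real.log (Fintype.card J) := by
  have h1 := defect hb hc hw
  set r : I → ℝ := fun i => ∑ j', gm R w j' * inc R i j' with hr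
  have hr0 : ∀ i, 0 ≤ r i := fun i =>
    Finset.sum_nonneg fun j _ => mul_nonneg (gm_nonneg R w j) (inc_nonneg R i j)
  have hr1 : ∀ i, r i ≤ 1 := by
    intro i
    rw [← sum_gm R w]
    apply Finset.sum_le_sum
    intro j _
    have := gm_nonneg R w j
    have := inc_le_one R i j
    nlinarith
  have h2 : ∑ j, ∑ i, dm R c w i j ^ 2 = c * ∑ i, w i ^ 2 * (r i - r i ^ 2) := by
    rw [Finset.sum_comm, Finset.mul_sum]
    apply Finset.sum_congr rfl
    intro i _
    have e1 : ∀ j, dm R c w i j ^ 2 = c * w i ^ 2 *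
        (gm R w j * inc R i j - 2 * r i * (gm R w j * inc R i j) + r i ^ 2 * gm R w j) := by
      intro j
      have hs := sm_sq R hc.le w j
      have hi := inc_sq R i j
      unfold dm
      rw [mul_pow, hs, mul_pow]
      have : (inc R i j - r i) ^ 2 = inc R i j - 2 * r i * inc R i j + r i ^ 2 := by
        rw [sub_sq, hi]; ring
      rw [this]
      ring
    simp_rw [e1]
    rw [← Finset.mul_sum, Finset.sum_add_distrib, Finset.sum_sub_distrib, ← Finset.mul_sum,
      ← Finset.mul_sum, sum_gm]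
    change c * w i ^ 2 * (r i - 2 * r i * r i + r i ^ 2 * 1) = _
    ring
  have h3 : ∑ i, w i ^ 2 * (r i - r i ^ 2) ≤ ∑ i, w i ^ 2 * (1 - r i) := by
    apply Finset.sum_le_sum
    intro i _
    apply mul_le_mul_of_nonneg_left _ (sq_nonneg _)
    nlinarith [hr0 i, hr1 i]
  have h4 : ∑ i, w i ^ 2 * (1 - r i) = b - ∑ j, gm R w j * en R w j := by
    simp_rw [mul_sub, mul_one]
    rw [Finset.sum_sub_distrib, hw.1]
    congr 1
    unfold en
    simp_rw [hr, Finset.mul_sum]
    rw [Finset.sum_comm]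
    apply Finset.sum_congr rfl
    intro j _
    apply Finset.sum_congr rfl
    intro i _
    ring
  rw [h2]
  have h5 : c * ∑ i, w i ^ 2 * (r i - r i ^ 2) ≤
      c * (b * Real.log (Fintype.card I) / c + Real.log (Fintype.card J)) := by
    apply mul_le_mul_of_nonneg_left _ hc.le
    linarith
  refine h5.trans (le_of_eq ?_)
  field_simp

/-- Coordinate functional. -/
def cp (i : I) : EuclideanSpace ℝ I →L[ℝ] ℝ := EuclideanSpace.proj (𝕜 := ℝ) i

@[simp] lemma cp_apply (i : I) (w : EuclideanSpace ℝ I) : cp i w = w i := rfl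

lemma hasStrictFDerivAt_coord (i : I) (w : EuclideanSpace ℝ I) :
    HasStrictFDerivAt (fun w : EuclideanSpace ℝ I => w i) (cp i) w :=
  (cp i).hasStrictFDerivAt

lemma hasStrictFDerivAt_en (j : J) (w : EuclideanSpace ℝ I) :
    HasStrictFDerivAt (fun w => en R w j) (∑ i, (2 * inc R i j * w i) • cp i) w := by
  unfold en
  apply HasStrictFDerivAt.fun_sum
  intro i _
  have h := ((hasStrictFDerivAt_coord i w).pow 2).const_mul (inc R i j)
  refine h.congr_fderiv ?_
  ext h
  simp
  ring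

lemma hasStrictFDerivAt_pf (w : EuclideanSpace ℝ I) :
    HasStrictFDerivAt (pf R)
      (∑ j, Real.exp (en R w j) • ∑ i, (2 * inc R i j * w i) • cp i) w := by
  unfold pf
  apply HasStrictFDerivAt.fun_sum
  intro j _
  exact (hasStrictFDerivAt_en j w).exp

lemma hasStrictFDerivAt_sm (c : ℝ) (j : J) (w : EuclideanSpace ℝ I) :
    HasStrictFDerivAt (fun w => sm R c w j) (∑ i, dm R c w i j • cp i) w := by
  have h1 : HasStrictFDerivAt (fun w => Real.sqrt c *
      Real.exp (en R w j * (1 / 2) - Real.log (pf R w) * (1 / 2))) _ w :=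
    (((hasStrictFDerivAt_en (R := R) j w).mul_const (1 / 2 : ℝ)).sub
    (((hasStrictFDerivAt_pf (R := R) w).log (pf_pos R w).ne').mul_const (1 / 2 : ℝ))).exp.const_mul
      (Real.sqrt c)
  have h2 : (fun w => sm R c w j) = fun w => Real.sqrt c *
      Real.exp (en R w j * (1 / 2) - Real.log (pf R w) * (1 / 2)) := by
    funext w
    rw [sm_apply]
    congr 2
    ring
  rw [h2]
  refine h1.congr_fderiv ?_
  ext h
  have hsm : sm R c w j = Real.sqrt c *
      Real.exp (en R w j * (1 / 2) - Real.log (pf R w) * (1 / 2)) := congrFun h2 w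
  simp only [_root_.smul_apply, _root_.sub_apply,
    _root_.sum_apply, cp_apply, smul_eq_mul, dm, Pi.sub_apply, hsm]
  set Q := Real.sqrt c * Real.exp (en R w j * (1 / 2) - Real.log (pf R w) * (1 / 2)) with hQ
  have e1 : (pf R w)⁻¹ * ∑ j', Real.exp (en R w j') * ∑ i, 2 * inc R i j' * w i * h i =
      ∑ i, 2 * (w i * (∑ j', gm R w j' * inc R i j')) * h i := by
    rw [Finset.mul_sum]
    simp_rw [Finset.mul_sum, Finset.sum_mul]
    rw [Finset.sum_comm]
    apply Finset.sum_congr rfl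
    intro i _
    apply Finset.sum_congr rfl
    intro j' _
    unfold gm
    ring
  have e2 : ∑ i, Q * (w i * (inc R i j - ∑ j', gm R w j' * inc R i j')) * h i =
      Q * ((1 / 2) * ∑ i, 2 * inc R i j * w i * h i -
        (1 / 2) * ∑ i, 2 * (w i * (∑ j', gm R w j' * inc R i j')) * h i) := by
    rw [Finset.mul_sum, Finset.mul_sum, ← Finset.sum_sub_distrib, Finset.mul_sum]
    apply Finset.sum_congr rfl
    intro i _
    ring
  rw [e2, ← e1, hQ]
  ring

end Map

end

end Pool.Agent.Lib.MP_191c59_gt.Core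
end

section

set_option autoImplicit false

namespace Pool.Agent.Lib.MP_191c59_gt.Core

open MeasureTheory Finset

noncomputable section

/-- One-dimensional standard Gaussian density. -/
def ph (t : ℝ) : ℝ := ProbabilityTheory.gaussianPDFReal 0 1 t

lemma ph_pos (t : ℝ) : 0 < ph t := ProbabilityTheory.gaussianPDFReal_pos 0 1 t (by norm_num)

lemma ph_add (t z : ℝ) : ph (t + z) = ph t * Real.exp (-(t * z) - z ^ 2 / 2) := by
  unfold ph
  rw [ProbabilityTheory.gaussianPDFReal_def]
  simp only [NNReal.coe_one, sub_zero, mul_one]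
  rw [mul_assoc, ← Real.exp_add]
  congr 2
  ring

lemma continuous_ph : Continuous ph := by
  unfold ph
  rw [ProbabilityTheory.gaussianPDFReal_def]
  fun_prop

lemma integral_ph : ∫ t, ph t = 1 :=
  ProbabilityTheory.integral_gaussianPDFReal_eq_one 0 (by norm_num)

lemma integral_id_ph : ∫ t, t * ph t = 0 := by
  have h := ProbabilityTheory.integral_id_gaussianReal (μ := 0) (v := 1)
  rw [ProbabilityTheory.integral_gaussianReal_eq_integral_smul (by norm_num)] at h
  rw [← h]
  apply integral_congr_ae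
  filter_upwards with t
  simp [ph, mul_comm]

lemma integral_sq_ph : ∫ t, t ^ 2 * ph t = 1 := by
  have h := ProbabilityTheory.variance_id_gaussianReal (μ := 0) (v := 1)
  rw [ProbabilityTheory.variance_of_integral_eq_zero (by fun_prop)
    (by simpa using ProbabilityTheory.integral_id_gaussianReal (μ := 0) (v := 1))] at h
  rw [ProbabilityTheory.integral_gaussianReal_eq_integral_smul (by norm_num)] at h
  simp only [NNReal.coe_one] at h
  rw [← h]
  apply integral_congr_ae
  filter_upwards with t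
  simp [ph, mul_comm]

lemma integrable_ph : Integrable ph := by
  by_contra h
  have := integral_undef h
  rw [integral_ph] at this
  norm_num at this

lemma integrable_sq_ph : Integrable (fun t => t ^ 2 * ph t) := by
  by_contra h
  have := integral_undef h
  rw [integral_sq_ph] at this
  norm_num at this

lemma integrable_id_ph : Integrable (fun t => t * ph t) := by
  refine (integrable_ph.add integrable_sq_ph).mono' ?_ ?_
  · exact (continuous_id.mul continuous_ph).aestronglyMeasurable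
  · filter_upwards with t
    have h1 := ph_pos t
    rw [Real.norm_eq_abs, abs_mul, abs_of_pos h1]
    simp only [Pi.add_apply]
    have : |t| ≤ 1 + t ^ 2 := by
      rw [abs_le]; constructor <;> nlinarith [sq_nonneg (t - 1), sq_nonneg (t + 1)]
    nlinarith

variable {ι : Type*} [Fintype ι]

/-- The standard Gaussian density on `ι → ℝ`. -/
def Ph (x : ι → ℝ) : ℝ := ∏ i, ph (x i)

lemma Ph_pos (x : ι → ℝ) : 0 < Ph x := Finset.prod_pos fun i _ => ph_pos _

lemma continuous_Ph : Continuous (Ph : (ι → ℝ) → ℝ) := by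
  unfold Ph
  exact continuous_finsetProd _ fun i _ => continuous_ph.comp (continuous_apply i)

lemma Ph_add (x z : ι → ℝ) :
    Ph (x + z) = Ph x * Real.exp (-(∑ i, x i * z i) - (∑ i, z i ^ 2) / 2) := by
  unfold Ph
  simp only [Pi.add_apply, ph_add, Finset.prod_mul_distrib, ← Real.exp_sum]
  congr 2
  rw [Finset.sum_sub_distrib, Finset.sum_neg_distrib, Finset.sum_div]

lemma Ph_neg (x : ι → ℝ) : Ph (-x) = Ph x := by
  unfold Ph
  apply Finset.prod_congr rfl
  intro i _
  simp [ph, ProbabilityTheory.gaussianPDFReal_def]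

lemma Ph_shift (x z : ι → ℝ) :
    2 * Real.exp (-(∑ i, z i ^ 2) / 2) * Ph x ≤ Ph (x + z) + Ph (x - z) := by
  rw [sub_eq_add_neg, Ph_add, Ph_add]
  simp only [Pi.neg_apply, mul_neg, Finset.sum_neg_distrib, neg_neg, neg_sq]
  have h1 : Real.exp (-(∑ i, x i * z i) - (∑ i, z i ^ 2) / 2) =
      Real.exp (-(∑ i, z i ^ 2) / 2) * Real.exp (-(∑ i, x i * z i)) := by
    rw [← Real.exp_add]; congr 1; ring
  have h2 : Real.exp ((∑ i, x i * z i) - (∑ i, z i ^ 2) / 2) =
      Real.exp (-(∑ i, z i ^ 2) / 2) * Real.exp (∑ i, x i * z i) := by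
    rw [← Real.exp_add]; congr 1; ring
  rw [h1, h2]
  have h3 : 2 ≤ Real.exp (-(∑ i, x i * z i)) + Real.exp (∑ i, x i * z i) := by
    have := Real.add_one_le_exp (-(∑ i, x i * z i))
    have := Real.add_one_le_exp (∑ i, x i * z i)
    linarith
  have h4 := Ph_pos x
  have h5 := Real.exp_pos (-(∑ i, z i ^ 2) / 2)
  have h6 := mul_pos h4 h5
  nlinarith

lemma integral_Ph : ∫ x : ι → ℝ, Ph x = 1 := by
  unfold Ph
  rw [integral_fintype_prod_volume_eq_pow, integral_ph, one_pow]

lemma integrable_Ph : Integrable (Ph : (ι → ℝ) → ℝ) := by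
  by_contra h
  have := integral_undef h
  rw [integral_Ph] at this
  norm_num at this

open scoped Classical in
lemma mul_mul_Ph_eq (i j : ι) (x : ι → ℝ) : x i * x j * Ph x =
    ∏ k, ((if k = i then x k else 1) * (if k = j then x k else 1) * ph (x k)) := by
  rw [Finset.prod_mul_distrib, Finset.prod_mul_distrib]
  simp [Ph, Finset.prod_ite_eq']

open scoped Classical in
lemma factor_cases (i j k : ι) : (fun t : ℝ => (if k = i then t else 1) *
    (if k = j then t else 1) * ph t) =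
      if k = i then (if k = j then (fun t => t ^ 2 * ph t) else fun t => t * ph t)
      else (if k = j then (fun t => t * ph t) else ph) := by
  by_cases h1 : k = i <;> by_cases h2 : k = j
  · rw [if_pos h1, if_pos h2]; funext t; rw [if_pos h1, if_pos h2]; ring
  · rw [if_pos h1, if_neg h2]; funext t; rw [if_pos h1, if_neg h2]; ring
  · rw [if_neg h1, if_pos h2]; funext t; rw [if_neg h1, if_pos h2]; ring
  · rw [if_neg h1, if_neg h2]; funext t; rw [if_neg h1, if_neg h2]; ring

lemma integrable_mul_mul_Ph (i j : ι) : Integrable (fun x : ι → ℝ => x i * x j * Ph x) := by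
  classical
  simp_rw [mul_mul_Ph_eq i j]
  apply Integrable.fintype_prod (f := fun k t => (if k = i then t else 1) *
    (if k = j then t else 1) * ph t)
  intro k
  rw [factor_cases]
  split_ifs
  · exact integrable_sq_ph
  · exact integrable_id_ph
  · exact integrable_id_ph
  · exact integrable_ph

open scoped Classical in
lemma integral_mul_mul_Ph (i j : ι) : ∫ x : ι → ℝ, x i * x j * Ph x = if i = j then 1 else 0 := by
  simp_rw [mul_mul_Ph_eq i j]
  rw [integral_fintype_prod_volume_eq_prod (f := fun k t => (if k = i then t else 1) *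
    (if k = j then t else 1) * ph t)]
  simp_rw [factor_cases]
  by_cases hij : i = j
  · subst hij
    rw [if_pos rfl]
    apply Finset.prod_eq_one
    intro k _
    by_cases h1 : k = i
    · simp only [h1, if_true]
      exact integral_sq_ph
    · simp only [h1, if_false]
      exact integral_ph
  · rw [if_neg hij]
    apply Finset.prod_eq_zero (Finset.mem_univ i)
    simp only [if_true, if_neg hij]
    exact integral_id_ph

variable {κ : Type*} [Fintype κ]

/-- The squared norm of `A x`. -/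
def nsq (A : ι → κ → ℝ) (x : ι → ℝ) : ℝ := ∑ j, (∑ i, A i j * x i) ^ 2

lemma nsq_expand (A : ι → κ → ℝ) (x : ι → ℝ) :
    nsq A x * Ph x = ∑ j, ∑ i, ∑ i', A i j * A i' j * (x i * x i' * Ph x) := by
  unfold nsq
  rw [Finset.sum_mul]
  apply Finset.sum_congr rfl
  intro j _
  rw [sq, Finset.sum_mul_sum, Finset.sum_mul]
  apply Finset.sum_congr rfl
  intro i _
  rw [Finset.sum_mul]
  apply Finset.sum_congr rfl
  intro i' _
  ring

lemma integrable_nsq (A : ι → κ → ℝ) : Integrable (fun x : ι → ℝ => nsq A x * Ph x) := by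
  simp_rw [nsq_expand]
  apply integrable_finsetSum
  intro j _
  apply integrable_finsetSum
  intro i _
  apply integrable_finsetSum
  intro i' _
  exact (integrable_mul_mul_Ph i i').const_mul _

lemma integral_nsq (A : ι → κ → ℝ) :
    ∫ x : ι → ℝ, nsq A x * Ph x = ∑ j, ∑ i, A i j ^ 2 := by
  classical
  simp_rw [nsq_expand]
  rw [integral_finsetSum]
  · apply Finset.sum_congr rfl
    intro j _
    rw [integral_finsetSum]
    · apply Finset.sum_congr rfl
      intro i _
      rw [integral_finsetSum]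
      · simp_rw [integral_const_mul, integral_mul_mul_Ph]
        simp [sq]
      · intro i' _
        exact (integrable_mul_mul_Ph i i').const_mul _
    · intro i _
      apply integrable_finsetSum
      intro i' _
      exact (integrable_mul_mul_Ph i i').const_mul _
  · intro j _
    apply integrable_finsetSum
    intro i _
    apply integrable_finsetSum
    intro i' _
    exact (integrable_mul_mul_Ph i i').const_mul _

lemma nsq_nonneg (A : ι → κ → ℝ) (x : ι → ℝ) : 0 ≤ nsq A x :=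
  Finset.sum_nonneg fun _ _ => sq_nonneg _

lemma nsq_neg (A : ι → κ → ℝ) (x : ι → ℝ) : nsq A (-x) = nsq A x := by
  unfold nsq
  simp [Finset.sum_neg_distrib]

lemma nsq_smul (A : ι → κ → ℝ) (c : ℝ) (x : ι → ℝ) : nsq A (c • x) = c ^ 2 * nsq A x := by
  unfold nsq
  rw [Finset.mul_sum]
  apply Finset.sum_congr rfl
  intro j _
  rw [← mul_pow, Finset.mul_sum]
  congr 1
  apply Finset.sum_congr rfl
  intro i _
  simp only [Pi.smul_apply, smul_eq_mul]
  ring

lemma nsq_sub_le (A : ι → κ → ℝ) (x y : ι → ℝ) : nsq A (x - y) ≤ 2 * nsq A x + 2 * nsq A y := by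
  unfold nsq
  rw [Finset.mul_sum, Finset.mul_sum, ← Finset.sum_add_distrib]
  apply Finset.sum_le_sum
  intro j _
  have : ∑ i, A i j * (x - y) i = (∑ i, A i j * x i) - ∑ i, A i j * y i := by
    rw [← Finset.sum_sub_distrib]
    apply Finset.sum_congr rfl
    intro i _
    simp only [Pi.sub_apply]
    ring
  rw [this]
  nlinarith [sq_nonneg ((∑ i, A i j * x i) + ∑ i, A i j * y i)]

lemma continuous_nsq (A : ι → κ → ℝ) : Continuous (nsq A) := by
  unfold nsq
  fun_prop

/-- Indicator of the body `nsq A x ≤ 4 τ`. -/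
def ind (A : ι → κ → ℝ) (τ : ℝ) (x : ι → ℝ) : ℝ :=
  Set.indicator {x | nsq A x ≤ 4 * τ} (fun _ => (1 : ℝ)) x

lemma ind_nonneg (A : ι → κ → ℝ) (τ : ℝ) (x : ι → ℝ) : 0 ≤ ind A τ x := by
  unfold ind
  exact Set.indicator_nonneg (fun _ _ => zero_le_one) _

lemma ind_le_one (A : ι → κ → ℝ) (τ : ℝ) (x : ι → ℝ) : ind A τ x ≤ 1 := by
  unfold ind
  exact Set.indicator_le_self' (fun _ _ => zero_le_one) _

lemma ind_neg (A : ι → κ → ℝ) (τ : ℝ) (x : ι → ℝ) : ind A τ (-x) = ind A τ x := by
  classical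
  unfold ind
  rw [Set.indicator_apply, Set.indicator_apply]
  simp only [Set.mem_setOf_eq, nsq_neg]

lemma measurable_ind (A : ι → κ → ℝ) (τ : ℝ) : Measurable (ind A τ) := by
  have : ind A τ = Set.indicator {x | nsq A x ≤ 4 * τ} (fun _ => (1 : ℝ)) := rfl
  rw [this]
  apply Measurable.indicator measurable_const
  exact (isClosed_le (continuous_nsq A) continuous_const).measurableSet

lemma integrable_bdd_mul_Ph {f : (ι → ℝ) → ℝ} (hf : Measurable f) (h0 : ∀ x, 0 ≤ f x)
    (h1 : ∀ x, f x ≤ 1) (z : ι → ℝ) : Integrable (fun x => f x * Ph (x + z)) := by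
  have hz : Integrable (fun x : ι → ℝ => Ph (x + z)) := integrable_Ph.comp_add_right z
  refine hz.mono' ?_ ?_
  · exact (hf.mul (continuous_Ph.measurable.comp (measurable_add_const z))).aestronglyMeasurable
  · filter_upwards with x
    have := Ph_pos (x + z)
    rw [Real.norm_eq_abs, abs_of_nonneg (mul_nonneg (h0 x) this.le)]
    nlinarith [h1 x, h0 x]

lemma ind_mass (A : ι → κ → ℝ) {τ : ℝ} (hτ : 0 < τ) (hA : ∑ j, ∑ i, A i j ^ 2 ≤ τ) :
    3 / 4 ≤ ∫ x : ι → ℝ, ind A τ x * Ph x := by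
  have h0 : Integrable (fun x : ι → ℝ => ind A τ x * Ph x) := by
    have := integrable_bdd_mul_Ph (measurable_ind A τ) (ind_nonneg A τ) (ind_le_one A τ) 0
    simpa using this
  have h1 : ∀ x : ι → ℝ, Ph x - ind A τ x * Ph x ≤ (4 * τ)⁻¹ * (nsq A x * Ph x) := by
    intro x
    have hp := Ph_pos x
    by_cases hx : nsq A x ≤ 4 * τ
    · have : ind A τ x = 1 := by
        unfold ind
        rw [Set.indicator_of_mem]
        exact hx
      rw [this]
      have := mul_nonneg (nsq_nonneg A x) hp.le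
      have : 0 ≤ (4 * τ)⁻¹ * (nsq A x * Ph x) := by positivity
      linarith
    · have : ind A τ x = 0 := by
        unfold ind
        rw [Set.indicator_of_notMem]
        exact hx
      rw [this]
      have h2 : 1 ≤ (4 * τ)⁻¹ * nsq A x := by
        push Not at hx
        rw [inv_mul_eq_div, le_div_iff₀ (by linarith)]
        linarith
      have : Ph x ≤ ((4 * τ)⁻¹ * nsq A x) * Ph x := by nlinarith
      linarith [mul_assoc (4 * τ)⁻¹ (nsq A x) (Ph x)]
  have h2 := integral_mono (integrable_Ph.sub h0) ((integrable_nsq A).const_mul (4 * τ)⁻¹) h1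
  rw [integral_const_mul, integral_nsq] at h2
  have h3 : ∫ x : ι → ℝ, (Ph x - ind A τ x * Ph x) = 1 - ∫ x : ι → ℝ, ind A τ x * Ph x := by
    rw [integral_sub integrable_Ph h0, integral_Ph]
  have h4 : (4 * τ)⁻¹ * ∑ j, ∑ i, A i j ^ 2 ≤ 1 / 4 := by
    rw [inv_mul_le_iff₀ (by linarith)]
    linarith
  have h5 : ∫ x : ι → ℝ, (Ph x - ind A τ x * Ph x) ≤ 1 / 4 := h2.trans h4
  linarith

lemma ind_shift (A : ι → κ → ℝ) (τ : ℝ) (z : ι → ℝ) :
    Real.exp (-(∑ i, z i ^ 2) / 2) * ∫ x : ι → ℝ, ind A τ x * Ph x ≤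
      ∫ x : ι → ℝ, ind A τ (x - z) * Ph x := by
  have hI : ∀ w : ι → ℝ, Integrable (fun x => ind A τ x * Ph (x + w)) := fun w =>
    integrable_bdd_mul_Ph (measurable_ind A τ) (ind_nonneg A τ) (ind_le_one A τ) w
  have e1 : ∫ x : ι → ℝ, ind A τ (x - z) * Ph x = ∫ x : ι → ℝ, ind A τ x * Ph (x + z) := by
    have := integral_add_right_eq_self (μ := (volume : Measure (ι → ℝ)))
      (fun x => ind A τ (x - z) * Ph x) z
    rw [← this]
    simp
  have e2 : ∫ x : ι → ℝ, ind A τ x * Ph (x + z) = ∫ x : ι → ℝ, ind A τ x * Ph (x + -z) := by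
    have := integral_neg_eq_self (fun x => ind A τ x * Ph (x + z))
      (volume : Measure (ι → ℝ))
    rw [← this]
    congr 1
    funext x
    rw [ind_neg, ← Ph_neg (-x + z)]
    congr 2
    abel
  have h1 : 2 * ∫ x : ι → ℝ, ind A τ (x - z) * Ph x =
      ∫ x : ι → ℝ, (ind A τ x * Ph (x + z) + ind A τ x * Ph (x + -z)) := by
    rw [integral_add (hI z) (hI (-z)), ← e2, e1]
    ring
  have h2 : ∫ x : ι → ℝ, (2 * Real.exp (-(∑ i, z i ^ 2) / 2)) * (ind A τ x * Ph x) ≤
      ∫ x : ι → ℝ, (ind A τ x * Ph (x + z) + ind A τ x * Ph (x + -z)) := by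
    apply integral_mono
    · have := hI 0
      simp only [add_zero] at this
      exact this.const_mul _
    · exact (hI z).add (hI (-z))
    · intro x
      have := Ph_shift x z
      have h3 := ind_nonneg A τ x
      rw [sub_eq_add_neg] at this
      simp only
      nlinarith
  rw [integral_const_mul, ← h1] at h2
  linarith

/-- Packing bound (dual Sudakov inequality) for the image of the unit ball under a matrix of small
Hilbert-Schmidt norm. -/
theorem packing (A : ι → κ → ℝ) {τ s : ℝ} (hτ : 0 < τ) (hs : 0 < s)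
    (hA : ∑ j, ∑ i, A i j ^ 2 ≤ τ) (S : Finset (ι → ℝ))
    (hS1 : ∀ h ∈ S, ∑ i, h i ^ 2 ≤ 1)
    (hS2 : ∀ h ∈ S, ∀ h' ∈ S, h ≠ h' → s ^ 2 < nsq A (h - h')) :
    (S.card : ℝ) ≤ 4 / 3 * Real.exp (8 * τ / s ^ 2) := by
  classical
  set R0 : ℝ := 4 * Real.sqrt τ / s with hR0
  have hR0sq : R0 ^ 2 = 16 * τ / s ^ 2 := by
    rw [hR0, div_pow, mul_pow, Real.sq_sqrt hτ.le]
    norm_num
  have hpt : ∀ x : ι → ℝ, ∑ h ∈ S, ind A τ (x - R0 • h) * Ph x ≤ Ph x := by
    intro x
    have hp := Ph_pos x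
    rw [← Finset.sum_mul]
    have : ∑ h ∈ S, ind A τ (x - R0 • h) ≤ 1 := by
      by_cases hex : ∃ h ∈ S, nsq A (x - R0 • h) ≤ 4 * τ
      · obtain ⟨h, hhS, hh⟩ := hex
        rw [← Finset.add_sum_erase S _ hhS]
        have : ∑ h' ∈ S.erase h, ind A τ (x - R0 • h') = 0 := by
          apply Finset.sum_eq_zero
          intro h' hh'
          rw [Finset.mem_erase] at hh'
          unfold ind
          rw [Set.indicator_of_notMem]
          intro hle
          have hle' : nsq A (x - R0 • h') ≤ 4 * τ := hle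
          have h3 := nsq_sub_le A (x - R0 • h) (x - R0 • h')
          have h4 : (x - R0 • h) - (x - R0 • h') = R0 • (h' - h) := by
            rw [smul_sub]; abel
          rw [h4, nsq_smul, hR0sq] at h3
          have h5 := hS2 h' hh'.2 h hhS hh'.1
          have h6 : 16 * τ < 16 * τ / s ^ 2 * nsq A (h' - h) := by
            have : 16 * τ = 16 * τ / s ^ 2 * s ^ 2 := by field_simp
            calc 16 * τ = 16 * τ / s ^ 2 * s ^ 2 := this
              _ < 16 * τ / s ^ 2 * nsq A (h' - h) := by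
                apply mul_lt_mul_of_pos_left h5
                positivity
          linarith
        rw [this, add_zero]
        exact ind_le_one _ _ _
      · push Not at hex
        have : ∑ h ∈ S, ind A τ (x - R0 • h) = 0 := by
          apply Finset.sum_eq_zero
          intro h hh
          unfold ind
          rw [Set.indicator_of_notMem]
          intro hle
          exact absurd hle (not_le.2 (hex h hh))
        rw [this]
        exact zero_le_one
    nlinarith
  have hInt : ∀ h : ι → ℝ, Integrable (fun x : ι → ℝ => ind A τ (x - R0 • h) * Ph x) := by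
    intro h
    have := integrable_bdd_mul_Ph (f := fun x => ind A τ (x - R0 • h))
      ((measurable_ind A τ).comp (measurable_sub_const _)) (fun x => ind_nonneg A τ _)
      (fun x => ind_le_one A τ _) 0
    simpa using this
  have h1 : ∑ h ∈ S, ∫ x : ι → ℝ, ind A τ (x - R0 • h) * Ph x ≤ 1 := by
    rw [← integral_finsetSum S (fun h _ => hInt h), ← integral_Ph (ι := ι)]
    exact integral_mono (integrable_finsetSum S fun h _ => hInt h) integrable_Ph hpt
  have h2 : ∀ h ∈ S, 3 / 4 * Real.exp (-(8 * τ / s ^ 2)) ≤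
      ∫ x : ι → ℝ, ind A τ (x - R0 • h) * Ph x := by
    intro h hh
    refine le_trans ?_ (ind_shift A τ (R0 • h))
    have h3 := ind_mass A hτ hA
    have h4 : -(8 * τ / s ^ 2) ≤ -(∑ i, (R0 • h) i ^ 2) / 2 := by
      have : ∑ i, (R0 • h) i ^ 2 = R0 ^ 2 * ∑ i, h i ^ 2 := by
        rw [Finset.mul_sum]
        apply Finset.sum_congr rfl
        intro i _
        simp only [Pi.smul_apply, smul_eq_mul]
        ring
      rw [this, hR0sq]
      have h5 := hS1 h hh
      have h6 : 0 ≤ 16 * τ / s ^ 2 := by positivity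
      have h7 : 16 * τ / s ^ 2 * ∑ i, h i ^ 2 ≤ 16 * τ / s ^ 2 * 1 :=
        mul_le_mul_of_nonneg_left h5 h6
      have h8 : 16 * τ / s ^ 2 = 2 * (8 * τ / s ^ 2) := by ring
      linarith
    have h5 := Real.exp_le_exp.2 h4
    have h6 := Real.exp_pos (-(8 * τ / s ^ 2))
    nlinarith
  have h3 : (S.card : ℝ) * (3 / 4 * Real.exp (-(8 * τ / s ^ 2))) ≤ 1 := by
    have := Finset.sum_le_sum h2
    rw [Finset.sum_const, nsmul_eq_mul] at this
    linarith
  have h4 : Real.exp (-(8 * τ / s ^ 2)) * Real.exp (8 * τ / s ^ 2) = 1 := by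
    rw [← Real.exp_add]; simp
  have h5 := Real.exp_pos (8 * τ / s ^ 2)
  have h6 : (S.card : ℝ) = (S.card : ℝ) * (3 / 4 * Real.exp (-(8 * τ / s ^ 2))) *
      (4 / 3 * Real.exp (8 * τ / s ^ 2)) := by
    calc (S.card : ℝ) = (S.card : ℝ) *
        (Real.exp (-(8 * τ / s ^ 2)) * Real.exp (8 * τ / s ^ 2)) := by rw [h4, mul_one]
      _ = _ := by ring
  rw [h6]
  have h7 : 0 ≤ 4 / 3 * Real.exp (8 * τ / s ^ 2) := by positivity
  nlinarith

end

end Pool.Agent.Lib.MP_191c59_gt.Core
end

section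

set_option autoImplicit false
set_option linter.unusedSectionVars false

namespace Pool.Agent.Lib.MP_191c59_gt.Core

open Finset Real Metric Filter Topology

noncomputable section

variable {E F : Type*} [MetricSpace E] [MetricSpace F]

lemma cover_one (f : E → F) (K : Set E) (N : ℕ) (w0 : E) (r : ℝ) (hr : 0 < r)
    (hcount : ∀ S : Finset E, (∀ x ∈ S, dist x w0 ≤ r) →
      (∀ x ∈ S, ∀ y ∈ S, x ≠ y → r / 2 < dist (f x) (f y)) → S.card ≤ N) :
    ∃ S : Finset E, S.card ≤ N ∧ (∀ x ∈ S, x ∈ K) ∧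
      ∀ x ∈ K, dist x w0 ≤ r → ∃ c ∈ S, dist (f x) (f c) ≤ r / 2 := by
  classical
  have key : ∀ n : ℕ, (∃ S : Finset E, S.card = n ∧ (∀ x ∈ S, x ∈ K ∧ dist x w0 ≤ r) ∧
      (∀ x ∈ S, ∀ y ∈ S, x ≠ y → r / 2 < dist (f x) (f y))) ∨
      (∃ S : Finset E, (∀ x ∈ S, x ∈ K ∧ dist x w0 ≤ r) ∧
      (∀ x ∈ S, ∀ y ∈ S, x ≠ y → r / 2 < dist (f x) (f y)) ∧
      ∀ x ∈ K, dist x w0 ≤ r → ∃ c ∈ S, dist (f x) (f c) ≤ r / 2) := by
    intro n
    induction n with
    | zero => exact Or.inl ⟨∅, by simp⟩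
    | succ n ih =>
      rcases ih with ⟨S, hcard, hS1, hS2⟩ | h
      · by_cases hc : ∀ x ∈ K, dist x w0 ≤ r → ∃ c ∈ S, dist (f x) (f c) ≤ r / 2
        · exact Or.inr ⟨S, hS1, hS2, hc⟩
        · push Not at hc
          obtain ⟨x, hxK, hxr, hx⟩ := hc
          have hxS : x ∉ S := by
            intro hxS
            have := hx x hxS
            rw [dist_self] at this
            linarith
          refine Or.inl ⟨insert x S, ?_, ?_, ?_⟩
          · rw [Finset.card_insert_of_notMem hxS, hcard]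
          · intro y hy
            rw [Finset.mem_insert] at hy
            rcases hy with rfl | hy
            · exact ⟨hxK, hxr⟩
            · exact hS1 y hy
          · intro y hy z hz hyz
            rw [Finset.mem_insert] at hy hz
            rcases hy with rfl | hy <;> rcases hz with rfl | hz
            · exact absurd rfl hyz
            · exact hx z hz
            · rw [dist_comm]
              exact hx y hy
            · exact hS2 y hy z hz hyz
      · exact Or.inr h
  rcases key (N + 1) with ⟨S, hcard, hS1, hS2⟩ | ⟨S, hS1, hS2, hS3⟩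
  · have := hcount S (fun x hx => (hS1 x hx).2) hS2
    omega
  · exact ⟨S, hcount S (fun x hx => (hS1 x hx).2) hS2, fun x hx => (hS1 x hx).1, hS3⟩

theorem cover_step (f : E → F) (K : Set E) (N : ℕ) (r : ℝ) (hr : 0 < r)
    (hcount : ∀ w0 ∈ K, ∀ S : Finset E, (∀ x ∈ S, dist x w0 ≤ r) →
      (∀ x ∈ S, ∀ y ∈ S, x ≠ y → r / 2 < dist (f x) (f y)) → S.card ≤ N)
    (C : Finset E) (hC : ∀ c ∈ C, c ∈ K) :
    ∃ C' : Finset F, C'.card ≤ N * C.card ∧ (∀ c ∈ C', c ∈ f '' K) ∧
      ∀ x ∈ K, (∃ c ∈ C, dist x c ≤ r) → ∃ c' ∈ C', dist (f x) c' ≤ r / 2 := by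
  classical
  have h := fun c : C => cover_one f K N c.1 r hr (hcount c.1 (hC c.1 c.2))
  choose S hS1 hS2 hS3 using h
  refine ⟨C.attach.biUnion (fun c => (S c).image f), ?_, ?_, ?_⟩
  · calc (C.attach.biUnion (fun c => (S c).image f)).card ≤ C.attach.card * N :=
        Finset.card_biUnion_le_card_mul _ _ _ (fun c _ => Finset.card_image_le.trans (hS1 c))
      _ = N * C.card := by rw [Finset.card_attach, mul_comm]
  · intro c hc
    rw [Finset.mem_biUnion] at hc
    obtain ⟨c0, _, hc0⟩ := hc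
    rw [Finset.mem_image] at hc0
    obtain ⟨x, hx, rfl⟩ := hc0
    exact ⟨x, hS2 c0 x hx, rfl⟩
  · rintro x hxK ⟨c, hc, hxc⟩
    obtain ⟨y, hy, hxy⟩ := hS3 ⟨c, hc⟩ x hxK hxc
    exact ⟨f y, Finset.mem_biUnion.2 ⟨⟨c, hc⟩, Finset.mem_attach _ _,
      Finset.mem_image_of_mem _ hy⟩, hxy⟩

/-- Iterating two maps which both halve the radius of covers at the price of a factor `N`. -/
theorem cover_iter (f : E → F) (g : F → E) (K : Set E) (L : Set F) (N : ℕ) (δ : ℝ) (hδ : 0 < δ)
    (hfK : ∀ x ∈ K, f x ∈ L) (hgL : ∀ y ∈ L, g y ∈ K) (hK : IsCompact K)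
    (hf : ∀ w0 ∈ K, ∀ r, 0 < r → r ≤ δ → ∀ S : Finset E, (∀ x ∈ S, dist x w0 ≤ r) →
      (∀ x ∈ S, ∀ y ∈ S, x ≠ y → r / 2 < dist (f x) (f y)) → S.card ≤ N)
    (hg : ∀ w0 ∈ L, ∀ r, 0 < r → r ≤ δ → ∀ S : Finset F, (∀ x ∈ S, dist x w0 ≤ r) →
      (∀ x ∈ S, ∀ y ∈ S, x ≠ y → r / 2 < dist (g x) (g y)) → S.card ≤ N) :
    ∃ n0 : ℕ, ∀ m : ℕ, ∃ C : Finset E, C.card ≤ (N ^ 2) ^ m * n0 ∧ (∀ c ∈ C, c ∈ K) ∧
      ∀ x ∈ K, ∃ c ∈ C, dist ((g ∘ f)^[m] x) c ≤ δ * (1 / 4) ^ m := by
  classical
  -- initial cover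
  obtain ⟨t, htK, htfin, ht⟩ := hK.finite_cover_balls hδ
  refine ⟨htfin.toFinset.card, fun m => ?_⟩
  induction m with
  | zero =>
    refine ⟨htfin.toFinset, by simp, fun c hc => htK (htfin.mem_toFinset.1 hc), ?_⟩
    intro x hx
    have := ht hx
    rw [Set.mem_iUnion₂] at this
    obtain ⟨c, hc, hxc⟩ := this
    refine ⟨c, htfin.mem_toFinset.2 hc, ?_⟩
    simp only [Function.iterate_zero, id_eq, pow_zero, mul_one]
    exact (mem_ball.1 hxc).le
  | succ m ih =>
    obtain ⟨C, hC1, hC2, hC3⟩ := ih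
    have hr : 0 < δ * (1 / 4 : ℝ) ^ m := by positivity
    have hle : δ * (1 / 4 : ℝ) ^ m ≤ δ := by
      have : (1 / 4 : ℝ) ^ m ≤ 1 := pow_le_one₀ (by norm_num) (by norm_num)
      nlinarith
    obtain ⟨C', hC'1, hC'2, hC'3⟩ := cover_step f K N (δ * (1 / 4 : ℝ) ^ m) hr
      (fun w0 hw0 => hf w0 hw0 _ hr hle) C hC2
    have hC'L : ∀ c ∈ C', c ∈ L := by
      intro c hc
      obtain ⟨x, hx, rfl⟩ := hC'2 c hc
      exact hfK x hx
    obtain ⟨C'', hC''1, hC''2, hC''3⟩ := cover_step g L N (δ * (1 / 4 : ℝ) ^ m / 2)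
      (by positivity) (fun w0 hw0 => hg w0 hw0 _ (by positivity) (by linarith)) C' hC'L
    refine ⟨C'', ?_, ?_, ?_⟩
    · calc C''.card ≤ N * C'.card := hC''1
        _ ≤ N * (N * C.card) := Nat.mul_le_mul_left _ hC'1
        _ ≤ N * (N * ((N ^ 2) ^ m * htfin.toFinset.card)) :=
            Nat.mul_le_mul_left _ (Nat.mul_le_mul_left _ hC1)
        _ = (N ^ 2) ^ (m + 1) * htfin.toFinset.card := by ring
    · intro c hc
      obtain ⟨x, hx, rfl⟩ := hC''2 c hc
      exact hgL x hx
    · intro x hx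
      have hxK : ∀ m, (g ∘ f)^[m] x ∈ K := by
        intro m
        induction m with
        | zero => exact hx
        | succ m ih =>
          rw [Function.iterate_succ_apply']
          exact hgL _ (hfK _ ih)
      obtain ⟨c, hc, hxc⟩ := hC3 x hx
      obtain ⟨c', hc', hxc'⟩ := hC'3 _ (hxK m) ⟨c, hc, hxc⟩
      obtain ⟨c'', hc'', hxc''⟩ := hC''3 _ (hfK _ (hxK m)) ⟨c', hc', hxc'⟩
      refine ⟨c'', hc'', ?_⟩
      rw [Function.iterate_succ_apply']
      refine hxc''.trans (le_of_eq ?_)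
      rw [pow_succ]
      ring

end

end Pool.Agent.Lib.MP_191c59_gt.Core
end
end

section

section

set_option autoImplicit false

namespace Pool.Agent.Lib.MP_191c59_gt

open Finset

variable {Y : Type} [DecidableEq Y]

/-- the sign of `y` with respect to the set `A` -/
def sg (A : Finset Y) (y : Y) : ℝ := if y ∈ A then 1 else -1

/-- signed sum of `v` over `s` -/
def ss (s : Finset Y) (v : Y → ℝ) (A : Finset Y) : ℝ := ∑ y ∈ s, sg A y * v y

lemma ss_insert_left (v : Y → ℝ) {s : Finset Y} {a : Y} (ha : a ∉ s) {A : Finset Y}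
    (hA : A ⊆ s) : ss (insert a s) v A = - v a + ss s v A := by
  unfold ss
  rw [Finset.sum_insert ha]
  have : a ∉ A := fun h => ha (hA h)
  simp [sg, this]

lemma ss_insert_right (v : Y → ℝ) {s : Finset Y} {a : Y} (ha : a ∉ s) {A : Finset Y} :
    ss (insert a s) v (insert a A) = v a + ss s v A := by
  unfold ss
  rw [Finset.sum_insert ha]
  have h1 : sg (insert a A) a = 1 := by simp [sg]
  rw [h1, one_mul]
  congr 1
  apply Finset.sum_congr rfl
  intro y hy
  have hya : y ≠ a := fun h => ha (h ▸ hy)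
  have : sg (insert a A) y = sg A y := by simp [sg, hya]
  rw [this]

lemma sum_ss_insert (v : Y → ℝ) {s : Finset Y} {a : Y} (ha : a ∉ s) (f : ℝ → ℝ) (x : ℝ) :
    ∑ A ∈ (insert a s).powerset, f (x + ss (insert a s) v A) =
    ∑ A ∈ s.powerset, f ((x - v a) + ss s v A) + ∑ A ∈ s.powerset, f ((x + v a) + ss s v A) := by
  rw [Finset.sum_powerset_insert ha]
  congr 1
  · apply Finset.sum_congr rfl
    intro A hA
    rw [ss_insert_left v ha (Finset.mem_powerset.1 hA)]
    congr 1
    ring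
  · apply Finset.sum_congr rfl
    intro A hA
    rw [ss_insert_right v ha]
    congr 1
    ring

lemma sum_ss_sq (v : Y → ℝ) (s : Finset Y) : ∀ x : ℝ,
    ∑ A ∈ s.powerset, (x + ss s v A) ^ 2 = 2 ^ s.card * (x ^ 2 + ∑ y ∈ s, v y ^ 2) := by
  induction s using Finset.induction_on with
  | empty => intro x; simp [ss]
  | insert a s ha ih =>
    intro x
    rw [sum_ss_insert v ha (fun t => t ^ 2) x]
    rw [ih, ih, Finset.card_insert_of_notMem ha, Finset.sum_insert ha, pow_succ]
    ring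

lemma sum_ss_four (v : Y → ℝ) (s : Finset Y) : ∀ x : ℝ,
    ∑ A ∈ s.powerset, (x + ss s v A) ^ 4 ≤
      2 ^ s.card * (x ^ 4 + 6 * x ^ 2 * (∑ y ∈ s, v y ^ 2) + 3 * (∑ y ∈ s, v y ^ 2) ^ 2) := by
  induction s using Finset.induction_on with
  | empty => intro x; simp [ss]
  | insert a s ha ih =>
    intro x
    rw [sum_ss_insert v ha (fun t => t ^ 4) x]
    refine (add_le_add (ih _) (ih _)).trans ?_
    rw [Finset.card_insert_of_notMem ha, Finset.sum_insert ha, pow_succ (2 : ℝ)]
    set W := ∑ y ∈ s, v y ^ 2 with hW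
    have hW0 : 0 ≤ W := Finset.sum_nonneg fun _ _ => sq_nonneg _
    have h2 : (0 : ℝ) < 2 ^ s.card := by positivity
    rw [← mul_add, mul_assoc ((2:ℝ) ^ s.card) 2]
    apply mul_le_mul_of_nonneg_left _ h2.le
    nlinarith [sq_nonneg (v a ^ 2), sq_nonneg (v a), sq_nonneg x]

lemma cosh_aux (β x a : ℝ) :
    Real.exp (β * (x - a) ^ 2) + Real.exp (β * (x + a) ^ 2) ≤
      2 * Real.exp (β * a ^ 2 + β * (1 + 2 * β * a ^ 2) * x ^ 2) := by
  have h1 : Real.exp (β * (x - a) ^ 2) = Real.exp (β * x ^ 2 + β * a ^ 2) *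
      Real.exp (-(2 * β * x * a)) := by rw [← Real.exp_add]; congr 1; ring
  have h2 : Real.exp (β * (x + a) ^ 2) = Real.exp (β * x ^ 2 + β * a ^ 2) *
      Real.exp (2 * β * x * a) := by rw [← Real.exp_add]; congr 1; ring
  have h3 := Real.cosh_le_exp_half_sq (2 * β * x * a)
  have h4 : Real.exp (-(2 * β * x * a)) + Real.exp (2 * β * x * a)
      = 2 * Real.cosh (2 * β * x * a) := by rw [Real.cosh_eq]; ring
  have h5 : β * a ^ 2 + β * (1 + 2 * β * a ^ 2) * x ^ 2 =
    (β * x ^ 2 + β * a ^ 2) + (2 * β * x * a) ^ 2 / 2 := by ring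
  rw [h1, h2, ← mul_add, h4, h5, Real.exp_add _ ((2 * β * x * a) ^ 2 / 2)]
  have := mul_le_mul_of_nonneg_left h3 (Real.exp_pos (β * x ^ 2 + β * a ^ 2)).le
  linarith

lemma sum_ss_exp (v : Y → ℝ) (t : ℝ) (ht : 0 ≤ t) (s : Finset Y) :
    2 * t * (∑ y ∈ s, v y ^ 2) < 1 → ∀ x : ℝ,
    ∑ A ∈ s.powerset, Real.exp (t * (x + ss s v A) ^ 2) ≤
      2 ^ s.card * Real.exp (t / (1 - 2 * t * ∑ y ∈ s, v y ^ 2) *
        ((∑ y ∈ s, v y ^ 2) + x ^ 2)) := by
  induction s using Finset.induction_on with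
  | empty => intro _ x; simp [ss]
  | insert a s ha ih =>
    intro hlt x
    rw [sum_ss_insert v ha (fun u => Real.exp (t * u ^ 2)) x]
    rw [Finset.sum_insert ha] at hlt
    rw [Finset.card_insert_of_notMem ha, Finset.sum_insert ha, pow_succ]
    set W := ∑ y ∈ s, v y ^ 2 with hW
    have hW0 : 0 ≤ W := Finset.sum_nonneg fun _ _ => sq_nonneg _
    have hva : 0 ≤ v a ^ 2 := sq_nonneg _
    have htv : 0 ≤ t * v a ^ 2 := mul_nonneg ht hva
    have hlt' : 2 * t * W < 1 := by nlinarith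
    specialize ih hlt'
    set β := t / (1 - 2 * t * W) with hβ
    have hd : 0 < 1 - 2 * t * W := by linarith
    have hd' : 0 < 1 - 2 * t * (v a ^ 2 + W) := by linarith
    have hβ0 : 0 ≤ β := div_nonneg ht hd.le
    refine (add_le_add (ih _) (ih _)).trans ?_
    rw [← mul_add, mul_assoc]
    apply mul_le_mul_of_nonneg_left _ (by positivity)
    have e1 : Real.exp (β * (W + (x - v a) ^ 2)) + Real.exp (β * (W + (x + v a) ^ 2)) =
        Real.exp (β * W) * (Real.exp (β * (x - v a) ^ 2) + Real.exp (β * (x + v a) ^ 2)) := by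
      rw [mul_add (Real.exp (β * W)), ← Real.exp_add, ← Real.exp_add]
      congr 1 <;> congr 1 <;> ring
    rw [e1]
    refine (mul_le_mul_of_nonneg_left (cosh_aux β x (v a)) (Real.exp_pos _).le).trans ?_
    rw [show Real.exp (β * W) * (2 * Real.exp (β * v a ^ 2 + β * (1 + 2 * β * v a ^ 2) * x ^ 2))
      = 2 * Real.exp (β * W + (β * v a ^ 2 + β * (1 + 2 * β * v a ^ 2) * x ^ 2)) by
        rw [Real.exp_add (β * W)]; ring]
    apply mul_le_mul_of_nonneg_left _ (by norm_num : (0:ℝ) ≤ 2)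
    apply Real.exp_le_exp.2
    set γ := t / (1 - 2 * t * (v a ^ 2 + W)) with hγ
    have hγ0 : 0 ≤ γ := div_nonneg ht hd'.le
    have hβd : β * (1 - 2 * t * W) = t := div_mul_cancel₀ _ hd.ne'
    have hβγ : β * (1 + 2 * β * v a ^ 2) ≤ γ := by
      rw [hγ, le_div_iff₀ hd']
      have h1 : β * (1 + 2 * β * v a ^ 2) * (1 - 2 * t * (v a ^ 2 + W)) =
          β * (1 - 2 * t * W) * (1 + 2 * β * v a ^ 2) - 2 * β * (1 + 2 * β * v a ^ 2) * (t * v a ^ 2) := by
        ring
      rw [h1, hβd]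
      nlinarith [mul_nonneg (mul_nonneg hβ0 (mul_nonneg hβ0 hva)) htv]
    have hβγ' : β ≤ γ := by
      refine le_trans ?_ hβγ
      nlinarith [mul_nonneg hβ0 (mul_nonneg hβ0 hva)]
    nlinarith [mul_le_mul_of_nonneg_right hβγ (sq_nonneg x), mul_le_mul_of_nonneg_right hβγ' hW0,
      mul_le_mul_of_nonneg_right hβγ' hva]

lemma exp_neg_le_quad (u : ℝ) (hu : 0 ≤ u) : Real.exp (-u) ≤ 1 - u + u ^ 2 / 2 := by
  have h := Real.quadratic_le_exp_of_nonneg hu
  rw [Real.exp_neg, inv_le_comm₀ (Real.exp_pos _) (by nlinarith [sq_nonneg (u - 1)])]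
  refine le_trans ?_ h
  rw [inv_le_iff_one_le_mul₀ (by nlinarith [sq_nonneg (u - 1)])]
  nlinarith [sq_nonneg (u ^ 2)]

variable [Fintype Y]

lemma sum_exp_neg_le (v : Y → ℝ) (hW : 0 < ∑ y, v y ^ 2) :
    ∑ A : Finset Y, Real.exp (-((1 / (3 * ∑ y, v y ^ 2)) * (ss univ v A) ^ 2)) ≤
      2 ^ Fintype.card Y * (5 / 6) := by
  set W := ∑ y, v y ^ 2 with hWd
  have h2 := sum_ss_sq v univ 0
  have h4 := sum_ss_four v univ 0
  rw [Finset.powerset_univ] at h2 h4
  rw [← hWd, Finset.card_univ] at h2 h4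
  simp only [zero_add] at h2 h4
  have hle : ∀ A : Finset Y, Real.exp (-((1 / (3 * W)) * (ss univ v A) ^ 2)) ≤
      1 - (1 / (3 * W)) * (ss univ v A) ^ 2 + (1 / (3 * W)) ^ 2 / 2 * (ss univ v A) ^ 4 := by
    intro A
    have := exp_neg_le_quad ((1 / (3 * W)) * (ss univ v A) ^ 2) (by positivity)
    refine this.trans (le_of_eq ?_)
    ring
  refine (Finset.sum_le_sum fun A _ => hle A).trans ?_
  rw [Finset.sum_add_distrib, Finset.sum_sub_distrib, ← Finset.mul_sum, ← Finset.mul_sum, h2]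
  simp only [Finset.sum_const, Finset.card_univ, Fintype.card_finset, nsmul_eq_mul, mul_one,
    Nat.cast_pow, Nat.cast_ofNat]
  have h5 : (1 / (3 * W)) ^ 2 / 2 * ∑ A : Finset Y, (ss univ v A) ^ 4 ≤
      (1 / (3 * W)) ^ 2 / 2 * (2 ^ Fintype.card Y * (0 ^ 4 + 6 * 0 ^ 2 * W + 3 * W ^ 2)) :=
    mul_le_mul_of_nonneg_left h4 (by positivity)
  have h6 : (1 / (3 * W)) ^ 2 / 2 * (2 ^ Fintype.card Y * (0 ^ 4 + 6 * 0 ^ 2 * W + 3 * W ^ 2))
      = 2 ^ Fintype.card Y * (1 / 6 : ℝ) := by
    field_simp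
    ring
  have h7 : 1 / (3 * W) * (2 ^ Fintype.card Y * (0 ^ 2 + W)) = 2 ^ Fintype.card Y * (1 / 3 : ℝ) := by
    field_simp
    ring
  rw [h7]
  linarith

lemma sum_exp_pos_le (v : Y → ℝ) (hW : 0 < ∑ y, v y ^ 2) :
    ∑ A : Finset Y, Real.exp ((1 / (4 * ∑ y, v y ^ 2)) * (ss univ v A) ^ 2) ≤
      2 ^ Fintype.card Y * Real.exp (1 / 2) := by
  set W := ∑ y, v y ^ 2 with hWd
  have h := sum_ss_exp v (1 / (4 * W)) (by positivity) univ (by
    rw [← hWd]; field_simp; norm_num) 0
  rw [Finset.powerset_univ] at h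
  rw [← hWd, Finset.card_univ] at h
  simp only [zero_add] at h
  refine h.trans (le_of_eq ?_)
  congr 2
  field_simp
  norm_num
  ring

omit [DecidableEq Y] in
lemma sum_prod_pow {k : ℕ} (f : Finset Y → ℝ) :
    ∑ ω : Fin k → Finset Y, ∏ j, f (ω j) = (∑ A : Finset Y, f A) ^ k := by
  rw [Fintype.sum_pow]

lemma card_lo (k : ℕ) (v : Y → ℝ) :
    (((univ : Finset (Fin k → Finset Y)).filter
      (fun ω => ∑ j, (ss univ v (ω j)) ^ 2 < (k / 4 : ℝ) * ∑ y, v y ^ 2)).card : ℝ) ≤
      (2 ^ Fintype.card Y) ^ k * Real.exp (-(k / 12 : ℝ)) := by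
  rcases (Finset.sum_nonneg fun y (_ : y ∈ (univ : Finset Y)) => sq_nonneg (v y)).eq_or_lt with h0 | hW
  · rw [← h0]
    have : (univ : Finset (Fin k → Finset Y)).filter
      (fun ω => ∑ j, (ss univ v (ω j)) ^ 2 < (k / 4 : ℝ) * 0) = ∅ := by
      apply Finset.filter_eq_empty_iff.2
      intro ω _
      rw [mul_zero, not_lt]
      exact Finset.sum_nonneg fun _ _ => sq_nonneg _
    rw [this]
    simp
    positivity
  · set W := ∑ y, v y ^ 2 with hWd
    have hb := sum_exp_neg_le v hW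
    rw [← hWd] at hb
    have h1 : (((univ : Finset (Fin k → Finset Y)).filter
      (fun ω => ∑ j, (ss univ v (ω j)) ^ 2 < (k / 4 : ℝ) * W)).card : ℝ) ≤
      ∑ ω : Fin k → Finset Y, Real.exp (k / 12) *
        ∏ j, Real.exp (-((1 / (3 * W)) * (ss univ v (ω j)) ^ 2)) := by
      rw [Finset.card_eq_sum_ones, Finset.sum_filter]
      push_cast
      apply Finset.sum_le_sum
      intro ω _
      split_ifs with h
      · rw [← Real.exp_sum, ← Real.exp_add]
        apply Real.one_le_exp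
        rw [Finset.sum_neg_distrib, ← Finset.mul_sum]
        have : 1 / (3 * W) * ∑ j, (ss univ v (ω j)) ^ 2 ≤ 1 / (3 * W) * ((k / 4 : ℝ) * W) :=
          mul_le_mul_of_nonneg_left h.le (by positivity)
        have h2 : 1 / (3 * W) * ((k / 4 : ℝ) * W) = k / 12 := by
          field_simp
          ring
        linarith
      · positivity
    refine h1.trans ?_
    rw [← Finset.mul_sum, sum_prod_pow (fun A => Real.exp (-((1 / (3 * W)) * (ss univ v A) ^ 2)))]
    have h2 : (∑ A : Finset Y, Real.exp (-((1 / (3 * W)) * (ss univ v A) ^ 2))) ^ k ≤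
      (2 ^ Fintype.card Y * Real.exp (-(1 / 6))) ^ k := by
      apply pow_le_pow_left₀ (by positivity)
      refine hb.trans ?_
      apply mul_le_mul_of_nonneg_left _ (by positivity)
      have := Real.add_one_le_exp (-(1 / 6 : ℝ))
      linarith
    refine (mul_le_mul_of_nonneg_left h2 (by positivity)).trans (le_of_eq ?_)
    rw [mul_pow, ← Real.exp_nat_mul, mul_left_comm, ← Real.exp_add]
    congr 2
    ring

lemma card_up (k : ℕ) (v : Y → ℝ) :
    (((univ : Finset (Fin k → Finset Y)).filter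
      (fun ω => (4 * k : ℝ) * ∑ y, v y ^ 2 < ∑ j, (ss univ v (ω j)) ^ 2)).card : ℝ) ≤
      (2 ^ Fintype.card Y) ^ k * Real.exp (-(k / 2 : ℝ)) := by
  rcases (Finset.sum_nonneg fun y (_ : y ∈ (univ : Finset Y)) => sq_nonneg (v y)).eq_or_lt with h0 | hW
  · have hv : ∀ y, v y = 0 := by
      intro y
      have := (Finset.sum_eq_zero_iff_of_nonneg (fun y _ => sq_nonneg (v y))).1 h0.symm y (mem_univ y)
      exact pow_eq_zero_iff (two_ne_zero) |>.1 this
    rw [← h0]
    have : (univ : Finset (Fin k → Finset Y)).filter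
      (fun ω => (4 * k : ℝ) * 0 < ∑ j, (ss univ v (ω j)) ^ 2) = ∅ := by
      apply Finset.filter_eq_empty_iff.2
      intro ω _
      rw [mul_zero, not_lt]
      apply le_of_eq
      apply Finset.sum_eq_zero
      intro j _
      simp [ss, hv]
    rw [this]
    simp
    positivity
  · set W := ∑ y, v y ^ 2 with hWd
    have hb := sum_exp_pos_le v hW
    rw [← hWd] at hb
    have h1 : (((univ : Finset (Fin k → Finset Y)).filter
      (fun ω => (4 * k : ℝ) * W < ∑ j, (ss univ v (ω j)) ^ 2)).card : ℝ) ≤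
      ∑ ω : Fin k → Finset Y, Real.exp (-k) *
        ∏ j, Real.exp ((1 / (4 * W)) * (ss univ v (ω j)) ^ 2) := by
      rw [Finset.card_eq_sum_ones, Finset.sum_filter]
      push_cast
      apply Finset.sum_le_sum
      intro ω _
      split_ifs with h
      · rw [← Real.exp_sum, ← Real.exp_add]
        apply Real.one_le_exp
        rw [← Finset.mul_sum]
        have : 1 / (4 * W) * ((4 * k : ℝ) * W) ≤ 1 / (4 * W) * ∑ j, (ss univ v (ω j)) ^ 2 :=
          mul_le_mul_of_nonneg_left h.le (by positivity)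
        have h2 : 1 / (4 * W) * ((4 * k : ℝ) * W) = k := by
          field_simp
        linarith
      · positivity
    refine h1.trans ?_
    rw [← Finset.mul_sum, sum_prod_pow (fun A => Real.exp ((1 / (4 * W)) * (ss univ v A) ^ 2))]
    have h2 : (∑ A : Finset Y, Real.exp ((1 / (4 * W)) * (ss univ v A) ^ 2)) ^ k ≤
      (2 ^ Fintype.card Y * Real.exp (1 / 2)) ^ k := by
      apply pow_le_pow_left₀ (by positivity) hb
    refine (mul_le_mul_of_nonneg_left h2 (by positivity)).trans (le_of_eq ?_)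
    rw [mul_pow, ← Real.exp_nat_mul, mul_left_comm, ← Real.exp_add]
    congr 2
    ring

/-- Simultaneous two-sided second moment bounds for a finite family of vectors, from `k`
random sign vectors. -/
lemma exists_signs {I : Type} [Fintype I] (v : I → Y → ℝ) (k : ℕ)
    (hk : (Fintype.card I : ℝ) * (2 * Real.exp (-(k / 12 : ℝ))) < 1) :
    ∃ ω : Fin k → Finset Y, ∀ i,
      (k / 4 : ℝ) * ∑ y, v i y ^ 2 ≤ ∑ j, (ss univ (v i) (ω j)) ^ 2 ∧
      ∑ j, (ss univ (v i) (ω j)) ^ 2 ≤ (4 * k : ℝ) * ∑ y, v i y ^ 2 := by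
  classical
  by_contra hcon
  push Not at hcon
  have hcov : (univ : Finset (Fin k → Finset Y)) ⊆ (univ : Finset I).biUnion (fun i =>
      ((univ : Finset (Fin k → Finset Y)).filter
      (fun ω => ∑ j, (ss univ (v i) (ω j)) ^ 2 < (k / 4 : ℝ) * ∑ y, v i y ^ 2)) ∪
      ((univ : Finset (Fin k → Finset Y)).filter
      (fun ω => (4 * k : ℝ) * ∑ y, v i y ^ 2 < ∑ j, (ss univ (v i) (ω j)) ^ 2))) := by
    intro ω _
    obtain ⟨i, hi⟩ := hcon ω
    rw [Finset.mem_biUnion]
    refine ⟨i, mem_univ _, ?_⟩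
    rw [Finset.mem_union, Finset.mem_filter, Finset.mem_filter]
    by_cases h : (k / 4 : ℝ) * ∑ y, v i y ^ 2 ≤ ∑ j, (ss univ (v i) (ω j)) ^ 2
    · right
      exact ⟨mem_univ _, hi h⟩
    · left
      exact ⟨mem_univ _, not_le.1 h⟩
  have hcard := (Finset.card_le_card hcov).trans Finset.card_biUnion_le
  have hcard' : ((univ : Finset (Fin k → Finset Y)).card : ℝ) ≤
      ∑ i : I, ((2 ^ Fintype.card Y) ^ k * (2 * Real.exp (-(k / 12 : ℝ)))) := by
    refine le_trans (Nat.cast_le.2 hcard) ?_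
    push_cast
    apply Finset.sum_le_sum
    intro i _
    have h1 := card_lo k (v i)
    have h2 := card_up k (v i)
    have h3 : Real.exp (-(k / 2 : ℝ)) ≤ Real.exp (-(k / 12 : ℝ)) := by
      apply Real.exp_le_exp.2
      have : (0 : ℝ) ≤ k := Nat.cast_nonneg k
      linarith
    have h4 : (0 : ℝ) < (2 ^ Fintype.card Y) ^ k := by positivity
    have h5 := mul_le_mul_of_nonneg_left h3 h4.le
    refine le_trans (Nat.cast_le.2 (Finset.card_union_le _ _)) ?_
    push_cast
    linarith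
  rw [Finset.sum_const, Finset.card_univ, Finset.card_univ, nsmul_eq_mul] at hcard'
  have h6 : ((Fintype.card (Fin k → Finset Y) : ℕ) : ℝ) = (2 ^ Fintype.card Y) ^ k := by
    simp [Fintype.card_finset]
  rw [h6] at hcard'
  have h4 : (0 : ℝ) < (2 ^ Fintype.card Y) ^ k := by positivity
  nlinarith

end Pool.Agent.Lib.MP_191c59_gt
end

section

set_option autoImplicit false
set_option linter.unusedSectionVars false

namespace Pool.Agent.Lib.MP_191c59_gt

open Finset

/-- Second moment of a sum of `r` independent copies (with offset `c`). -/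
lemma moment_tuple {Ω : Type} [Fintype Ω] (w u : Ω → ℝ) (hw : ∑ a, w a = 1) (r : ℕ) :
    ∀ c : ℝ, ∑ T : Fin r → Ω, (∏ i, w (T i)) * (c + ∑ i, u (T i)) ^ 2 =
      c ^ 2 + 2 * c * r * (∑ a, w a * u a) + r * (r - 1) * (∑ a, w a * u a) ^ 2
        + r * ∑ a, w a * u a ^ 2 := by
  induction r with
  | zero => intro c; simp
  | succ r ih =>
    intro c
    rw [← (Fin.consEquiv (fun _ : Fin (r + 1) => Ω)).sum_comp, Fintype.sum_prod_type]
    have h1 : ∀ a : Ω, ∑ T : Fin r → Ω,
        (∏ i, w ((Fin.consEquiv (fun _ : Fin (r + 1) => Ω)) (a, T) i)) *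
          (c + ∑ i, u ((Fin.consEquiv (fun _ : Fin (r + 1) => Ω)) (a, T) i)) ^ 2 =
        w a * ((c + u a) ^ 2 + 2 * (c + u a) * r * (∑ a, w a * u a) +
          r * (r - 1) * (∑ a, w a * u a) ^ 2 + r * ∑ a, w a * u a ^ 2) := by
      intro a
      rw [← ih (c + u a), Finset.mul_sum]
      apply Finset.sum_congr rfl
      intro T _
      rw [Fin.prod_univ_succ, Fin.sum_univ_succ]
      simp only [Fin.consEquiv_apply, Fin.cons_zero, Fin.cons_succ]
      ring
    rw [Finset.sum_congr rfl (fun a _ => h1 a)]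
    set m := ∑ a, w a * u a with hm
    set q := ∑ a, w a * u a ^ 2 with hq
    have h2 : ∀ a : Ω, w a * ((c + u a) ^ 2 + 2 * (c + u a) * r * m +
          r * (r - 1) * m ^ 2 + r * q) =
        w a * (c ^ 2 + 2 * c * r * m + r * (r - 1) * m ^ 2 + r * q) +
          (w a * u a) * (2 * c + 2 * r * m) + w a * u a ^ 2 := by
      intro a; ring
    rw [Finset.sum_congr rfl (fun a _ => h2 a), Finset.sum_add_distrib, Finset.sum_add_distrib,
      ← Finset.sum_mul, ← Finset.sum_mul, hw, ← hm, ← hq]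
    push_cast
    ring

section
variable {X Y : Type} [Fintype X] [Fintype Y] [DecidableEq Y]

open scoped Classical in
/-- The two-valued kernel attached to the relation `R`. -/
noncomputable def bet (R : X → Y → Prop) (δ : ℝ) (x : X) (y : Y) : ℝ :=
  if R x y then 1 else 1 - δ

open scoped Classical in
/-- `1` minus the mass of `p` on the elements related to `y`. -/
noncomputable def eps (R : X → Y → Prop) (p : X → ℝ) (y : Y) : ℝ :=
  1 - ∑ x, if R x y then p x else 0

lemma sum_bet (R : X → Y → Prop) (δ : ℝ) (p : X → ℝ) (hp : ∑ x, p x = 1) (y : Y) :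
    ∑ x, p x * bet R δ x y = 1 - δ * eps R p y := by
  classical
  have h : ∀ x, p x * bet R δ x y = (1 - δ) * p x + δ * (if R x y then p x else 0) := by
    intro x
    unfold bet
    split_ifs <;> ring
  rw [Finset.sum_congr rfl (fun x _ => h x), Finset.sum_add_distrib, ← Finset.mul_sum,
    ← Finset.mul_sum, hp]
  unfold eps
  ring_nf

lemma sum_bet_sq (R : X → Y → Prop) (δ : ℝ) (p : X → ℝ) (hp : ∑ x, p x = 1) (y : Y) :
    ∑ x, p x * bet R δ x y ^ 2 = 1 - (2 * δ - δ ^ 2) * eps R p y := by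
  classical
  have h : ∀ x, p x * bet R δ x y ^ 2 = (1 - δ) ^ 2 * p x +
      (2 * δ - δ ^ 2) * (if R x y then p x else 0) := by
    intro x
    unfold bet
    split_ifs <;> ring
  rw [Finset.sum_congr rfl (fun x _ => h x), Finset.sum_add_distrib, ← Finset.mul_sum,
    ← Finset.mul_sum, hp]
  unfold eps
  ring_nf

lemma eps_nonneg (R : X → Y → Prop) (p : X → ℝ) (hp0 : ∀ x, 0 ≤ p x) (hp : ∑ x, p x = 1) (y : Y) :
    0 ≤ eps R p y := by
  classical
  unfold eps
  rw [sub_nonneg, ← hp]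
  apply Finset.sum_le_sum
  intro x _
  split_ifs
  · exact le_rfl
  · exact hp0 x

lemma eps_le_one (R : X → Y → Prop) (p : X → ℝ) (hp0 : ∀ x, 0 ≤ p x) (y : Y) :
    eps R p y ≤ 1 := by
  classical
  unfold eps
  have : 0 ≤ ∑ x, if R x y then p x else 0 := by
    apply Finset.sum_nonneg
    intro x _
    split_ifs
    · exact hp0 x
    · exact le_rfl
  linarith

lemma eps_add (R : X → Y → Prop) (τ : Y → Y) (hR : ∀ x y, ¬ (R x y ∧ R x (τ y)))
    (p : X → ℝ) (hp0 : ∀ x, 0 ≤ p x) (hp : ∑ x, p x = 1) (y : Y) :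
    1 ≤ eps R p y + eps R p (τ y) := by
  classical
  have h : (∑ x, if R x y then p x else 0) + (∑ x, if R x (τ y) then p x else 0) ≤ 1 := by
    rw [← hp, ← Finset.sum_add_distrib]
    apply Finset.sum_le_sum
    intro x _
    have := hR x y
    have := hp0 x
    by_cases h1 : R x y <;> by_cases h2 : R x (τ y)
    · exact absurd ⟨h1, h2⟩ (hR x y)
    · simp [h1, h2]
    · simp [h1, h2]
    · simp [h1, h2, hp0 x]
  have e1 : eps R p y = 1 - ∑ x, if R x y then p x else 0 := rfl
  have e2 : eps R p (τ y) = 1 - ∑ x, if R x (τ y) then p x else 0 := rfl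
  rw [e1, e2]
  linarith

lemma eps_zero (R : X → Y → Prop) (p : X → ℝ) (hp : ∑ x, p x = 1) (y : Y)
    (hy : ∀ x, p x ≠ 0 → R x y) : eps R p y = 0 := by
  classical
  have e1 : eps R p y = 1 - ∑ x, if R x y then p x else 0 := rfl
  rw [e1, ← hp, sub_eq_zero]
  apply Finset.sum_congr rfl
  intro x _
  split_ifs with h
  · rfl
  · by_contra h2
    exact h (hy x h2)

/-- The product kernel of a tuple. -/
noncomputable def bS (R : X → Y → Prop) (δ : ℝ) {s : ℕ} (S : Fin s → X) (y : Y) : ℝ :=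
  ∏ l, bet R δ (S l) y

lemma bS_nonneg (R : X → Y → Prop) (δ : ℝ) (hδ : δ ≤ 1) {s : ℕ} (S : Fin s → X) (y : Y) :
    0 ≤ bS R δ S y := by
  classical
  unfold bS
  apply Finset.prod_nonneg
  intro l _
  unfold bet
  split_ifs
  · norm_num
  · linarith

lemma sum_w (p : X → ℝ) (hp : ∑ x, p x = 1) (s : ℕ) :
    ∑ S : Fin s → X, ∏ l, p (S l) = 1 := by
  rw [← Fintype.sum_pow, hp, one_pow]

lemma sum_w_bS (R : X → Y → Prop) (δ : ℝ) (p : X → ℝ) (hp : ∑ x, p x = 1) (s : ℕ) (y : Y) :
    ∑ S : Fin s → X, (∏ l, p (S l)) * bS R δ S y = (1 - δ * eps R p y) ^ s := by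
  rw [← sum_bet R δ p hp y, Fintype.sum_pow]
  apply Finset.sum_congr rfl
  intro S _
  unfold bS
  rw [Finset.prod_mul_distrib]

lemma sum_w_bS_sq (R : X → Y → Prop) (δ : ℝ) (p : X → ℝ) (hp : ∑ x, p x = 1) (s : ℕ) (y : Y) :
    ∑ S : Fin s → X, (∏ l, p (S l)) * bS R δ S y ^ 2 =
      (1 - (2 * δ - δ ^ 2) * eps R p y) ^ s := by
  rw [← sum_bet_sq R δ p hp y, Fintype.sum_pow]
  apply Finset.sum_congr rfl
  intro S _
  unfold bS
  rw [Finset.prod_mul_distrib, Finset.prod_pow]

/-- If the odd functionals attached to good sign vectors all vanish at `p`, then the squared norm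
of the odd part at `p` is small compared with the mean of the squared norms of samples. -/
lemma key_inequality (τ : Y → Y) (R : X → Y → Prop) (δ : ℝ) (s r k : ℕ) (hr : 0 < r) (hk : 0 < k)
    (ω : Fin k → Finset Y)
    (hω : ∀ T : Fin r → Fin s → X,
      (k / 4 : ℝ) * ∑ y, (∑ i, (bS R δ (T i) y - bS R δ (T i) (τ y))) ^ 2 ≤
        ∑ j, (ss univ (fun y => ∑ i, (bS R δ (T i) y - bS R δ (T i) (τ y))) (ω j)) ^ 2 ∧
      ∑ j, (ss univ (fun y => ∑ i, (bS R δ (T i) y - bS R δ (T i) (τ y))) (ω j)) ^ 2 ≤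
        (4 * k : ℝ) * ∑ y, (∑ i, (bS R δ (T i) y - bS R δ (T i) (τ y))) ^ 2)
    (p : X → ℝ) (hp0 : ∀ x, 0 ≤ p x) (hp : ∑ x, p x = 1)
    (hz : ∀ j, ∑ y, sg (ω j) y *
      ((1 - δ * eps R p y) ^ s - (1 - δ * eps R p (τ y)) ^ s) = 0) :
    (r - 1 : ℝ) * ∑ y, ((1 - δ * eps R p y) ^ s - (1 - δ * eps R p (τ y)) ^ s) ^ 2 ≤
      15 * ∑ S : Fin s → X, (∏ l, p (S l)) * ∑ y, (bS R δ S y - bS R δ S (τ y)) ^ 2 := by
  classical
  set w : (Fin s → X) → ℝ := fun S => ∏ l, p (S l) with hw
  have hw0 : ∀ S, 0 ≤ w S := fun S => Finset.prod_nonneg fun l _ => hp0 _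
  have hw1 : ∑ S, w S = 1 := sum_w p hp s
  set v : (Fin s → X) → Y → ℝ := fun S y => bS R δ S y - bS R δ S (τ y) with hv
  -- mean of v
  have hmean : ∀ y, ∑ S, w S * v S y = (1 - δ * eps R p y) ^ s - (1 - δ * eps R p (τ y)) ^ s := by
    intro y
    rw [← sum_w_bS R δ p hp s y, ← sum_w_bS R δ p hp s (τ y), ← Finset.sum_sub_distrib]
    apply Finset.sum_congr rfl
    intro S _
    simp only [hw, hv]
    ring
  have hss : ∀ (j : Fin k), ∑ S, w S * ss univ (v S) (ω j) = 0 := by
    intro j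
    rw [← hz j]
    unfold ss
    simp_rw [Finset.mul_sum]
    rw [Finset.sum_comm]
    apply Finset.sum_congr rfl
    intro y _
    rw [← hmean y, Finset.mul_sum]
    apply Finset.sum_congr rfl
    intro S _
    ring
  -- upper bound for a single S
  have hU : ∀ S : Fin s → X, ∑ j, (ss univ (v S) (ω j)) ^ 2 ≤ (4 * k : ℝ) * ∑ y, (v S y) ^ 2 := by
    intro S
    have h := (hω (fun _ => S)).2
    have e1 : ∀ j, ss univ (fun y => ∑ i : Fin r, (bS R δ S y - bS R δ S (τ y))) (ω j) =
        r * ss univ (v S) (ω j) := by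
      intro j
      unfold ss
      rw [Finset.mul_sum]
      apply Finset.sum_congr rfl
      intro y _
      simp only [Finset.sum_const, Finset.card_univ, Fintype.card_fin, nsmul_eq_mul, hv]
      ring
    have e2 : ∀ y, ∑ i : Fin r, (bS R δ S y - bS R δ S (τ y)) = r * v S y := by
      intro y
      rw [Finset.sum_const, Finset.card_univ, Fintype.card_fin, nsmul_eq_mul]
    simp only [e1, mul_pow] at h
    simp only [e2, mul_pow] at h
    rw [← Finset.mul_sum, ← Finset.mul_sum] at h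
    have hr2 : (0 : ℝ) < (r : ℝ) ^ 2 := by positivity
    have h' : (r : ℝ) ^ 2 * ∑ j, (ss univ (v S) (ω j)) ^ 2 ≤
        (r : ℝ) ^ 2 * ((4 * k : ℝ) * ∑ y, (v S y) ^ 2) := by linarith
    exact le_of_mul_le_mul_left h' hr2
  -- averaged lower bound
  have hlin : ∀ (T : Fin r → Fin s → X) (j : Fin k),
      ss univ (fun y => ∑ i, (bS R δ (T i) y - bS R δ (T i) (τ y))) (ω j) =
        ∑ i, ss univ (v (T i)) (ω j) := by
    intro T j
    unfold ss
    rw [Finset.sum_comm]
    apply Finset.sum_congr rfl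
    intro y _
    rw [Finset.mul_sum]
  have hL : ∑ T : Fin r → Fin s → X, (∏ i, w (T i)) *
        ((k / 4 : ℝ) * ∑ y, (∑ i, v (T i) y) ^ 2) ≤
      ∑ T : Fin r → Fin s → X, (∏ i, w (T i)) * ∑ j, (∑ i, ss univ (v (T i)) (ω j)) ^ 2 := by
    apply Finset.sum_le_sum
    intro T _
    apply mul_le_mul_of_nonneg_left _ (Finset.prod_nonneg fun i _ => hw0 _)
    have h := (hω T).1
    simp only [hlin] at h
    exact h
  have eL : ∑ T : Fin r → Fin s → X, (∏ i, w (T i)) *
        ((k / 4 : ℝ) * ∑ y, (∑ i, v (T i) y) ^ 2) =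
      (k / 4 : ℝ) * ∑ y, ((r : ℝ) * (r - 1) * (∑ S, w S * v S y) ^ 2 +
        r * ∑ S, w S * v S y ^ 2) := by
    have h1 : ∀ y, ∑ T : Fin r → Fin s → X, (∏ i, w (T i)) * (∑ i, v (T i) y) ^ 2 =
        (r : ℝ) * (r - 1) * (∑ S, w S * v S y) ^ 2 + r * ∑ S, w S * v S y ^ 2 := by
      intro y
      have := moment_tuple w (fun S => v S y) hw1 r 0
      simp only [zero_add] at this
      rw [this]
      ring
    rw [Finset.sum_congr rfl (fun y _ => (h1 y).symm), Finset.sum_comm, Finset.mul_sum]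
    apply Finset.sum_congr rfl
    intro T _
    rw [← Finset.mul_sum]
    ring
  have eR : ∑ T : Fin r → Fin s → X, (∏ i, w (T i)) * ∑ j, (∑ i, ss univ (v (T i)) (ω j)) ^ 2 =
      ∑ j, (r * ∑ S, w S * (ss univ (v S) (ω j)) ^ 2) := by
    have h1 : ∀ j, ∑ T : Fin r → Fin s → X, (∏ i, w (T i)) * (∑ i, ss univ (v (T i)) (ω j)) ^ 2 =
        r * ∑ S, w S * (ss univ (v S) (ω j)) ^ 2 := by
      intro j
      have := moment_tuple w (fun S => ss univ (v S) (ω j)) hw1 r 0
      simp only [zero_add] at this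
      rw [this, hss j]
      ring
    rw [Finset.sum_congr rfl (fun j _ => (h1 j).symm), Finset.sum_comm]
    apply Finset.sum_congr rfl
    intro T _
    rw [← Finset.mul_sum]
  have eR' : ∑ j, ((r : ℝ) * ∑ S, w S * (ss univ (v S) (ω j)) ^ 2) ≤
      r * ((4 * k : ℝ) * ∑ S, w S * ∑ y, (v S y) ^ 2) := by
    rw [← Finset.mul_sum]
    apply mul_le_mul_of_nonneg_left _ (Nat.cast_nonneg r)
    rw [Finset.sum_comm, Finset.mul_sum]
    apply Finset.sum_le_sum
    intro S _
    rw [← Finset.mul_sum]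
    have := mul_le_mul_of_nonneg_left (hU S) (hw0 S)
    linarith
  rw [eL, eR] at hL
  have hfin := hL.trans eR'
  rw [Finset.sum_add_distrib, ← Finset.mul_sum, ← Finset.mul_sum] at hfin
  have hsw : ∑ y, ∑ S, w S * v S y ^ 2 = ∑ S, w S * ∑ y, (v S y) ^ 2 := by
    rw [Finset.sum_comm]
    apply Finset.sum_congr rfl
    intro S _
    rw [Finset.mul_sum]
  rw [hsw] at hfin
  simp only [hmean] at hfin
  set V := ∑ y, ((1 - δ * eps R p y) ^ s - (1 - δ * eps R p (τ y)) ^ s) ^ 2
  set E := ∑ S, w S * ∑ y, (v S y) ^ 2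
  have hr' : (0 : ℝ) < r := by exact_mod_cast hr
  have hk' : (0 : ℝ) < k := by exact_mod_cast hk
  have h3 : (k * r : ℝ) * ((r - 1) * V) ≤ (k * r : ℝ) * (15 * E) := by nlinarith
  exact le_of_mul_le_mul_left h3 (by positivity)

end

end Pool.Agent.Lib.MP_191c59_gt
end
end
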