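import Mathlib
import Pool.Agent.Lib.MP_191c59_gt.Matrix

section

set_option autoImplicit false
set_option linter.unusedSectionVars false

namespace Pool.Agent.Lib.MP_191c59_gt.Core

open Finset Real Metric Filter Topology MeasureTheory ProbabilityTheory
open scoped RealInnerProductSpace ENNReal

noncomputable section

lemma gaussianPDFReal_le (v : NNReal) (hv : v ≠ 0) (x : ℝ) :
    gaussianPDFReal 0 v x ≤ 1 / (2 * Real.sqrt v) := by
  rw [gaussianPDFReal_def]
  have hv' : (0 : ℝ) < v := by positivity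
  have h1 : Real.exp (-(x - 0) ^ 2 / (2 * v)) ≤ 1 := by
    rw [Real.exp_le_one_iff]
    apply div_nonpos_of_nonpos_of_nonneg
    · nlinarith [sq_nonneg (x - 0)]
    · positivity
  have h2 : 2 * Real.sqrt v ≤ Real.sqrt (2 * π * v) := by
    have : 2 * Real.sqrt v = Real.sqrt (4 * v) := by
      rw [show (4 : ℝ) * v = 2 ^ 2 * v by norm_num, Real.sqrt_mul (by positivity),
        Real.sqrt_sq (by norm_num)]
    rw [this]
    apply Real.sqrt_le_sqrt
    nlinarith [Real.pi_gt_three]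
  have h3 : 0 < 2 * Real.sqrt v := by positivity
  calc (Real.sqrt (2 * π * v))⁻¹ * Real.exp (-(x - 0) ^ 2 / (2 * v))
      ≤ (Real.sqrt (2 * π * v))⁻¹ * 1 := by
        apply mul_le_mul_of_nonneg_left h1 (by positivity)
    _ ≤ 1 / (2 * Real.sqrt v) := by
        rw [mul_one, inv_eq_one_div]
        exact one_div_le_one_div_of_le h3 h2

lemma gaussian_small (v : NNReal) (hv : v ≠ 0) (κ : ℝ) (hκ : 0 ≤ κ) :
    gaussianReal 0 v (Set.Icc (-κ) κ) ≤ ENNReal.ofReal (κ / Real.sqrt v) := by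
  rw [gaussianReal_apply_eq_integral 0 hv]
  apply ENNReal.ofReal_le_ofReal
  calc ∫ x in Set.Icc (-κ) κ, gaussianPDFReal 0 v x
      ≤ ∫ x in Set.Icc (-κ) κ, (1 / (2 * Real.sqrt v)) := by
        apply setIntegral_mono
        · exact (integrable_gaussianPDFReal 0 v).integrableOn
        · exact (continuous_const.integrableOn_Icc)
        · intro x
          exact gaussianPDFReal_le v hv x
    _ = κ / Real.sqrt v := by
        rw [setIntegral_const]
        simp only [Measure.real, Real.volume_Icc, smul_eq_mul]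
        rw [ENNReal.toReal_ofReal (by linarith)]
        have : (0 : ℝ) < v := by positivity
        field_simp
        ring

variable {I : Type*} [Fintype I]

/-- Anticoncentration of a Gaussian functional. -/
lemma anti (w : EuclideanSpace ℝ I) (hw : w ≠ 0) (κ : ℝ) (hκ : 0 ≤ κ) :
    stdGaussian (EuclideanSpace ℝ I) {l | |⟪w, l⟫| ≤ κ} ≤ ENNReal.ofReal (κ / ‖w‖) := by
  have hnorm : 0 < ‖w‖ := norm_pos_iff.2 hw
  set L : StrongDual ℝ (EuclideanSpace ℝ I) := innerSL ℝ w with hL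
  have h1 := IsGaussian.map_eq_gaussianReal (μ := stdGaussian (EuclideanSpace ℝ I)) L
  rw [integral_strongDual_stdGaussian, variance_dual_stdGaussian] at h1
  have h2 : ‖L‖ = ‖w‖ := by rw [hL, innerSL_apply_norm]
  rw [h2] at h1
  have h3 : {l | |⟪w, l⟫| ≤ κ} = L ⁻¹' (Set.Icc (-κ) κ) := by
    ext l
    simp [hL, abs_le]
  rw [h3, ← Measure.map_apply (by fun_prop) measurableSet_Icc, h1]
  have hv : (‖w‖ ^ 2).toNNReal ≠ 0 := by
    simpa [Real.toNNReal_eq_zero] using hw
  refine (gaussian_small _ hv κ hκ).trans (le_of_eq ?_)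
  congr 2
  rw [Real.coe_toNNReal _ (by positivity), Real.sqrt_sq hnorm.le]

variable (I) in
lemma exists_radius : ∃ Λ : ℝ, 0 < Λ ∧
    stdGaussian (EuclideanSpace ℝ I) {l | Λ < ‖l‖} ≤ 1 / 4 := by
  set μ := stdGaussian (EuclideanSpace ℝ I)
  have h1 : Tendsto (fun n : ℕ => μ {l | (n : ℝ) < ‖l‖}) atTop
      (𝓝 (μ (⋂ n : ℕ, {l : EuclideanSpace ℝ I | (n : ℝ) < ‖l‖}))) := by
    apply tendsto_measure_iInter_atTop
    · intro n
      exact (isOpen_lt continuous_const continuous_norm).measurableSet.nullMeasurableSet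
    · intro m n hmn l hl
      have h2 : (n : ℝ) < ‖l‖ := hl
      have h3 : (m : ℝ) ≤ n := by exact_mod_cast hmn
      exact lt_of_le_of_lt h3 h2
    · exact ⟨0, measure_ne_top _ _⟩
  have h2 : (⋂ n : ℕ, {l : EuclideanSpace ℝ I | (n : ℝ) < ‖l‖}) = ∅ := by
    ext l
    simp only [Set.mem_iInter, Set.mem_empty_iff_false, iff_false, not_forall]
    obtain ⟨n, hn⟩ := exists_nat_gt ‖l‖
    exact ⟨n, fun h => absurd hn (not_lt.2 (le_of_lt h))⟩
  rw [h2, measure_empty] at h1
  have h3 : ∀ᶠ n : ℕ in atTop, μ {l | (n : ℝ) < ‖l‖} < 1 / 4 :=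
    (tendsto_order.1 h1).2 _ (by norm_num)
  obtain ⟨n, hn, hn1⟩ := (h3.and (eventually_ge_atTop 1)).exists
  exact ⟨n, by exact_mod_cast hn1, hn.le⟩

/-- One step of the selection of the functionals. -/
lemma select_one {Λ : ℝ} (hΛ0 : 0 < Λ)
    (hΛ : stdGaussian (EuclideanSpace ℝ I) {l | Λ < ‖l‖} ≤ 1 / 4)
    {c0 κ : ℝ} (hc0 : 0 < c0) (hκ : 0 < κ) (C : Finset (EuclideanSpace ℝ I))
    (hC : ∀ w ∈ C, c0 ≤ ‖w‖) :
    ∃ l : EuclideanSpace ℝ I, ‖l‖ ≤ Λ ∧
      ((C.filter (fun w => |⟪w, l⟫| ≤ κ)).card : ℝ) ≤ 2 * κ / c0 * C.card := by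
  classical
  by_contra hcon
  push Not at hcon
  have hn : 0 < C.card := by
    by_contra h
    have h0 : C.card = 0 := by omega
    have h1 := hcon 0 (by simpa using hΛ0.le)
    rw [Finset.card_eq_zero] at h0
    rw [h0] at h1
    simp at h1
  set μ := stdGaussian (EuclideanSpace ℝ I) with hμ
  have hmeas : ∀ w : EuclideanSpace ℝ I, MeasurableSet {l : EuclideanSpace ℝ I | |⟪w, l⟫| ≤ κ} := by
    intro w
    exact (isClosed_le (by fun_prop) continuous_const).measurableSet
  have h1 : ∫⁻ l, ∑ w ∈ C, Set.indicator {l | |⟪w, l⟫| ≤ κ} (fun _ => (1 : ℝ≥0∞)) l ∂μ ≤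
      C.card * ENNReal.ofReal (κ / c0) := by
    rw [lintegral_finsetSum _ (fun w _ => measurable_const.indicator (hmeas w))]
    calc ∑ w ∈ C, ∫⁻ l, Set.indicator {l | |⟪w, l⟫| ≤ κ} (fun _ => (1 : ℝ≥0∞)) l ∂μ
        ≤ ∑ w ∈ C, ENNReal.ofReal (κ / c0) := by
          apply Finset.sum_le_sum
          intro w hw
          rw [lintegral_indicator (hmeas w), lintegral_const, one_mul,
            Measure.restrict_apply_univ]
          have hw0 : 0 < ‖w‖ := lt_of_lt_of_le hc0 (hC w hw)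
          refine (anti w (norm_pos_iff.1 hw0) κ hκ.le).trans ?_
          apply ENNReal.ofReal_le_ofReal
          exact div_le_div_of_nonneg_left hκ.le hc0 (hC w hw)
      _ = C.card * ENNReal.ofReal (κ / c0) := by
          rw [Finset.sum_const, nsmul_eq_mul]
  have h2 : ∫⁻ l, Set.indicator {l : EuclideanSpace ℝ I | ‖l‖ ≤ Λ}
      (fun _ => ENNReal.ofReal (2 * κ / c0 * C.card)) l ∂μ ≤
      ∫⁻ l, ∑ w ∈ C, Set.indicator {l | |⟪w, l⟫| ≤ κ} (fun _ => (1 : ℝ≥0∞)) l ∂μ := by
    apply lintegral_mono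
    intro l
    by_cases hl : ‖l‖ ≤ Λ
    · rw [Set.indicator_of_mem (by exact hl)]
      have h3 := hcon l hl
      have h4 : ∑ w ∈ C, Set.indicator {l | |⟪w, l⟫| ≤ κ} (fun _ => (1 : ℝ≥0∞)) l =
          ((C.filter (fun w => |⟪w, l⟫| ≤ κ)).card : ℝ≥0∞) := by
        rw [Finset.card_filter]
        push_cast
        apply Finset.sum_congr rfl
        intro w _
        rw [Set.indicator_apply]
        rfl
      refine le_trans ?_ (le_of_eq h4.symm)
      rw [ENNReal.ofReal_le_iff_le_toReal (by simp)]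
      simpa using h3.le
    · rw [Set.indicator_of_notMem (by exact hl)]
      exact zero_le
  have h3 : (3 : ℝ≥0∞) / 4 ≤ μ {l : EuclideanSpace ℝ I | ‖l‖ ≤ Λ} := by
    have hcompl : {l : EuclideanSpace ℝ I | ‖l‖ ≤ Λ} = {l | Λ < ‖l‖}ᶜ := by
      ext l; simp
    have hm : MeasurableSet {l : EuclideanSpace ℝ I | Λ < ‖l‖} :=
      (isOpen_lt continuous_const continuous_norm).measurableSet
    rw [hcompl, prob_compl_eq_one_sub hm]
    refine le_trans ?_ (tsub_le_tsub_left hΛ 1)
    rw [ENNReal.le_sub_iff_add_le_right (by norm_num) (by norm_num)]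
    rw [ENNReal.div_add_div_same]
    norm_num
  have hm' : MeasurableSet {l : EuclideanSpace ℝ I | ‖l‖ ≤ Λ} :=
    (isClosed_le continuous_norm continuous_const).measurableSet
  rw [lintegral_indicator hm', lintegral_const, Measure.restrict_apply_univ] at h2
  have h4 := h2.trans h1
  have h5 : ENNReal.ofReal (2 * κ / c0 * C.card) * (3 / 4) ≤ C.card * ENNReal.ofReal (κ / c0) :=
    le_trans (mul_le_mul_right h3 _) h4
  have h6 : (C.card : ℝ≥0∞) * ENNReal.ofReal (κ / c0) = ENNReal.ofReal (C.card * (κ / c0)) := by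
    rw [ENNReal.ofReal_mul (by positivity), ENNReal.ofReal_natCast]
  have h7 : (3 : ℝ≥0∞) / 4 = ENNReal.ofReal (3 / 4) := by
    rw [ENNReal.ofReal_div_of_pos (by norm_num)]
    norm_num
  rw [h6, h7, ← ENNReal.ofReal_mul (by positivity), ENNReal.ofReal_le_ofReal_iff (by positivity)] at h5
  have h8 : (0 : ℝ) < C.card * (κ / c0) := by positivity
  have h9 : 2 * κ / c0 * (C.card : ℝ) * (3 / 4) = 3 / 2 * (C.card * (κ / c0)) := by ring
  rw [h9] at h5
  linarith

/-- Selection of `k` functionals. -/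
theorem select {Λ : ℝ} (hΛ0 : 0 < Λ)
    (hΛ : stdGaussian (EuclideanSpace ℝ I) {l | Λ < ‖l‖} ≤ 1 / 4)
    {c0 κ : ℝ} (hc0 : 0 < c0) (hκ : 0 < κ) (k : ℕ) : ∀ (C : Finset (EuclideanSpace ℝ I)),
    (∀ w ∈ C, c0 ≤ ‖w‖) →
    ∃ l : Fin k → EuclideanSpace ℝ I, (∀ t, ‖l t‖ ≤ Λ) ∧
      ((C.filter (fun w => ∀ t, |⟪w, l t⟫| ≤ κ)).card : ℝ) ≤ (2 * κ / c0) ^ k * C.card := by
  classical
  induction k with
  | zero =>
    intro C _
    refine ⟨fun t => t.elim0, fun t => t.elim0, ?_⟩
    simp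
  | succ k ih =>
    intro C hC
    obtain ⟨l0, hl0, hl0c⟩ := select_one hΛ0 hΛ hc0 hκ C hC
    obtain ⟨l, hl, hlc⟩ := ih (C.filter (fun w => |⟪w, l0⟫| ≤ κ))
      (fun w hw => hC w (Finset.mem_filter.1 hw).1)
    refine ⟨Fin.cons l0 l, ?_, ?_⟩
    · intro t
      refine Fin.cases ?_ ?_ t
      · simpa using hl0
      · intro t
        simpa using hl t
    · have h1 : C.filter (fun w => ∀ t, |⟪w, (Fin.cons l0 l : Fin (k + 1) → _) t⟫| ≤ κ) =
          (C.filter (fun w => |⟪w, l0⟫| ≤ κ)).filter (fun w => ∀ t, |⟪w, l t⟫| ≤ κ) := by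
        ext w
        simp only [Finset.mem_filter, Fin.forall_fin_succ, Fin.cons_zero, Fin.cons_succ]
        tauto
      rw [h1]
      refine hlc.trans ?_
      rw [pow_succ, mul_assoc]
      apply mul_le_mul_of_nonneg_left hl0c
      positivity

end

end Pool.Agent.Lib.MP_191c59_gt.Core
end

section

set_option autoImplicit false
set_option linter.unusedSectionVars false

namespace Pool.Agent.Lib.MP_191c59_gt.Core

open Finset Real Metric Filter Topology

noncomputable section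

variable {I J : Type*} [Fintype I] [Fintype J]

/-- Uniform counting estimate: images of small balls contain few half-separated points. -/
theorem local_count [Nonempty J] (f : EuclideanSpace ℝ I → EuclideanSpace ℝ J)
    (A : EuclideanSpace ℝ I → I → J → ℝ) (K : Set (EuclideanSpace ℝ I)) (hK : IsCompact K)
    {τ : ℝ} (hτ : 0 < τ)
    (hf : ∀ w ∈ K, ∀ j, HasStrictFDerivAt (fun w => f w j) (∑ i, A w i j • cp i) w)
    (hA : ∀ w ∈ K, ∑ j, ∑ i, A w i j ^ 2 ≤ τ) :
    ∃ δ > 0, ∀ w0 ∈ K, ∀ r, 0 < r → r ≤ δ → ∀ S : Finset (EuclideanSpace ℝ I),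
      (∀ x ∈ S, dist x w0 ≤ r) →
      (∀ x ∈ S, ∀ y ∈ S, x ≠ y → r / 2 < dist (f x) (f y)) →
      (S.card : ℝ) ≤ 4 / 3 * Real.exp (128 * τ) := by
  classical
  set n : ℝ := (Fintype.card J : ℝ) with hn
  have hn1 : 1 ≤ n := by
    rw [hn]; exact_mod_cast Fintype.card_pos
  set ε : ℝ := 1 / (8 * n) with hε
  have hεpos : 0 < ε := by positivity
  have hloc : ∀ w : K, ∃ δ > 0, ∀ x ∈ ball (w : EuclideanSpace ℝ I) δ,
      ∀ y ∈ ball (w : EuclideanSpace ℝ I) δ, ∀ j,
        |f x j - f y j - ∑ i, A w i j * (x i - y i)| ≤ ε * ‖x - y‖ := by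
    intro w
    have h1 : ∀ᶠ p in 𝓝 ((w : EuclideanSpace ℝ I), (w : EuclideanSpace ℝ I)), ∀ j : J,
        ‖f p.1 j - f p.2 j - (∑ i, A w i j • cp i) (p.1 - p.2)‖ ≤ ε * ‖p.1 - p.2‖ := by
      rw [Filter.eventually_all]
      intro j
      exact (hf w w.2 j).isLittleO.def hεpos
    obtain ⟨δ, hδ, hb⟩ := Metric.eventually_nhds_iff_ball.1 h1
    refine ⟨δ, hδ, fun x hx y hy j => ?_⟩
    have hmem : (x, y) ∈ ball ((w : EuclideanSpace ℝ I), (w : EuclideanSpace ℝ I)) δ := by
      rw [mem_ball, Prod.dist_eq]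
      exact max_lt hx hy
    have := hb _ hmem j
    simpa [_root_.sum_apply, cp_apply] using this
  choose d hd0 hd using hloc
  obtain ⟨δ, hδ, hLeb⟩ := lebesgue_number_lemma_of_metric hK
    (c := fun w : K => ball (w : EuclideanSpace ℝ I) (d w)) (fun w => isOpen_ball)
    (fun w hw => Set.mem_iUnion.2 ⟨⟨w, hw⟩, mem_ball_self (hd0 _)⟩)
  refine ⟨δ / 2, by positivity, fun w0 hw0 r hr hrδ S hS1 hS2 => ?_⟩
  obtain ⟨w, hw⟩ := hLeb w0 hw0
  have hin : ∀ x ∈ S, x ∈ ball (w : EuclideanSpace ℝ I) (d w) := by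
    intro x hx
    apply hw
    rw [mem_ball]
    have := hS1 x hx
    linarith
  let g : EuclideanSpace ℝ I → (I → ℝ) := fun x i => (x i - w0 i) / r
  have hginj : Set.InjOn g S := by
    intro x _ y _ hxy
    ext i
    have := congrFun hxy i
    simp only [g] at this
    field_simp at this
    linarith
  have hcard : (S.image g).card = S.card := Finset.card_image_of_injOn hginj
  rw [← hcard]
  have hpack := packing (A w) (τ := τ) (s := 1 / 4) hτ (by norm_num) (hA w w.2) (S.image g) ?_ ?_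
  · refine hpack.trans (le_of_eq ?_)
    congr 2
    ring
  · intro h hh
    rw [Finset.mem_image] at hh
    obtain ⟨x, hx, rfl⟩ := hh
    have h1 := hS1 x hx
    rw [EuclideanSpace.dist_eq] at h1
    have h2 : ∑ i, (x i - w0 i) ^ 2 ≤ r ^ 2 := by
      have h3 : (Real.sqrt (∑ i, dist (x i) (w0 i) ^ 2)) ^ 2 ≤ r ^ 2 :=
        pow_le_pow_left₀ (Real.sqrt_nonneg _) h1 2
      rw [Real.sq_sqrt (Finset.sum_nonneg fun _ _ => sq_nonneg _)] at h3
      simpa [Real.dist_eq, sq_abs] using h3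
    simp only [g, div_pow]
    rw [← Finset.sum_div, div_le_one (by positivity)]
    exact h2
  · intro h hh h' hh' hne
    rw [Finset.mem_image] at hh hh'
    obtain ⟨x, hx, rfl⟩ := hh
    obtain ⟨y, hy, rfl⟩ := hh'
    have hxy : x ≠ y := fun h => hne (by rw [h])
    have h1 := hS2 x hx y hy hxy
    have h2 : r ^ 2 / 4 < ∑ j, (f x j - f y j) ^ 2 := by
      rw [EuclideanSpace.dist_eq] at h1
      have h3 : (r / 2) ^ 2 < (Real.sqrt (∑ j, dist (f x j) (f y j) ^ 2)) ^ 2 :=
        pow_lt_pow_left₀ h1 (by positivity) (by norm_num)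
      rw [Real.sq_sqrt (Finset.sum_nonneg fun _ _ => sq_nonneg _)] at h3
      have h4 : ∑ j, dist (f x j) (f y j) ^ 2 = ∑ j, (f x j - f y j) ^ 2 := by
        apply Finset.sum_congr rfl
        intro j _
        rw [Real.dist_eq, sq_abs]
      rw [h4] at h3
      calc r ^ 2 / 4 = (r / 2) ^ 2 := by ring
        _ < _ := h3
    have hdist : ‖x - y‖ ≤ 2 * r := by
      rw [← dist_eq_norm]
      have := dist_triangle_right x y w0
      have := hS1 x hx
      have := hS1 y hy
      linarith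
    set a : J → ℝ := fun j => ∑ i, A w i j * (x i - y i) with ha
    have h3 : ∀ j, (f x j - f y j) ^ 2 ≤ 2 * a j ^ 2 + r ^ 2 / (8 * n) := by
      intro j
      have h4 := hd w x (hin x hx) y (hin y hy) j
      have h5 : |f x j - f y j - a j| ≤ ε * (2 * r) :=
        h4.trans (mul_le_mul_of_nonneg_left hdist hεpos.le)
      have h6 : (f x j - f y j - a j) ^ 2 ≤ (ε * (2 * r)) ^ 2 := by
        rw [← sq_abs]
        exact pow_le_pow_left₀ (abs_nonneg _) h5 2
      have h7 : (ε * (2 * r)) ^ 2 * 2 ≤ r ^ 2 / (8 * n) := by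
        rw [hε]
        have : (1 / (8 * n) * (2 * r)) ^ 2 * 2 = r ^ 2 / (8 * n) * (1 / n) := by
          field_simp
          ring
        rw [this]
        have h8 : 1 / n ≤ 1 := by
          rw [div_le_one (by linarith)]
          exact hn1
        have h9 : 0 ≤ r ^ 2 / (8 * n) := by positivity
        nlinarith
      nlinarith [sq_nonneg ((f x j - f y j - a j) - a j)]
    have h4 : ∑ j, (f x j - f y j) ^ 2 ≤ 2 * ∑ j, a j ^ 2 + r ^ 2 / 8 := by
      calc ∑ j, (f x j - f y j) ^ 2 ≤ ∑ j, (2 * a j ^ 2 + r ^ 2 / (8 * n)) :=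
            Finset.sum_le_sum fun j _ => h3 j
        _ = 2 * ∑ j, a j ^ 2 + r ^ 2 / 8 := by
            rw [Finset.sum_add_distrib, ← Finset.mul_sum, Finset.sum_const, nsmul_eq_mul,
              Finset.card_univ]
            have : n * (r ^ 2 / (8 * n)) = r ^ 2 / 8 := by field_simp
            rw [← hn, this]
    have h5 : r ^ 2 / 16 < ∑ j, a j ^ 2 := by linarith
    have h6 : nsq (A w) (g x - g y) = (∑ j, a j ^ 2) / r ^ 2 := by
      unfold nsq
      rw [Finset.sum_div]
      apply Finset.sum_congr rfl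
      intro j _
      rw [← div_pow]
      congr 1
      rw [ha, Finset.sum_div]
      apply Finset.sum_congr rfl
      intro i _
      simp only [g, Pi.sub_apply]
      ring
    rw [h6, lt_div_iff₀ (by positivity)]
    linarith

end

end Pool.Agent.Lib.MP_191c59_gt.Core
end

section

set_option autoImplicit false
set_option linter.unusedSectionVars false

namespace Pool.Agent.Lib.MP_191c59_gt

open Finset

variable {X Y : Type} [Fintype X] [Fintype Y] [DecidableEq Y]

lemma sum_comp_inv (τ : Y → Y) (hτ : ∀ y, τ (τ y) = y) (f : Y → ℝ) :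
    ∑ y, f (τ y) = ∑ y, f y :=
  Equiv.sum_comp (Function.Involutive.toPerm τ hτ) f

/-- Elementary comparison of the two powers. -/
lemma sq_ge_of_small (δ e : ℝ) (s : ℕ) (hδ0 : 0 < δ) (hδ : δ ≤ 1 / 4) (he0 : 0 ≤ e) (he1 : e ≤ 1)
    (hsmall : 2 * δ ^ 2 * e * s ≤ 1 / 4) :
    (3 / 4) * (1 - (2 * δ - δ ^ 2) * e) ^ s ≤ ((1 - δ * e) ^ s) ^ 2 := by
  have h1 : (1 - (2 * δ - δ ^ 2) * e) * (1 - 2 * δ ^ 2 * e) ≤ (1 - δ * e) ^ 2 := by
    have h : (1 - δ * e) ^ 2 - (1 - (2 * δ - δ ^ 2) * e) * (1 - 2 * δ ^ 2 * e) =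
        δ ^ 2 * e * (1 + e * (1 - 4 * δ + 2 * δ ^ 2)) := by ring
    have h2 : 0 ≤ 1 - 4 * δ + 2 * δ ^ 2 := by nlinarith [sq_nonneg δ]
    have h3 : 0 ≤ δ ^ 2 * e * (1 + e * (1 - 4 * δ + 2 * δ ^ 2)) := by positivity
    linarith
  have ha : 0 ≤ 1 - (2 * δ - δ ^ 2) * e := by nlinarith [mul_nonneg hδ0.le he0, sq_nonneg δ]
  have hb : 0 ≤ 1 - 2 * δ ^ 2 * e := by nlinarith [mul_nonneg (sq_nonneg δ) he0]
  have h2 : 3 / 4 ≤ (1 - 2 * δ ^ 2 * e) ^ s := by
    have := one_add_mul_le_pow (a := -(2 * δ ^ 2 * e)) (by linarith) s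
    have h3 : (1 : ℝ) + s * -(2 * δ ^ 2 * e) = 1 - 2 * δ ^ 2 * e * s := by ring
    rw [h3] at this
    have h4 : (1 + -(2 * δ ^ 2 * e)) = 1 - 2 * δ ^ 2 * e := by ring
    rw [h4] at this
    linarith
  have h3 : ((1 - δ * e) ^ s) ^ 2 = ((1 - δ * e) ^ 2) ^ s := by
    rw [← pow_mul, ← pow_mul, mul_comm s 2]
  rw [h3]
  calc (3 / 4) * (1 - (2 * δ - δ ^ 2) * e) ^ s
      ≤ (1 - 2 * δ ^ 2 * e) ^ s * (1 - (2 * δ - δ ^ 2) * e) ^ s := by
        apply mul_le_mul_of_nonneg_right h2 (by positivity)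
    _ = ((1 - (2 * δ - δ ^ 2) * e) * (1 - 2 * δ ^ 2 * e)) ^ s := by rw [mul_pow]; ring
    _ ≤ ((1 - δ * e) ^ 2) ^ s := by
        apply pow_le_pow_left₀ (mul_nonneg ha hb) h1

lemma a_small (δ e : ℝ) (s : ℕ) (hδ0 : 0 < δ) (hδ : δ ≤ 1 / 4) (he0 : 0 ≤ e) (he1 : e ≤ 1)
    (hbig : 1 / 4 < 2 * δ ^ 2 * e * s) :
    (1 - (2 * δ - δ ^ 2) * e) ^ s ≤ Real.exp (-(1 / (8 * δ))) := by
  have ha : 0 ≤ 1 - (2 * δ - δ ^ 2) * e := by nlinarith [mul_nonneg hδ0.le he0, sq_nonneg δ]
  have h1 : 1 - (2 * δ - δ ^ 2) * e ≤ Real.exp (-(δ * e)) := by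
    have := Real.add_one_le_exp (-(δ * e))
    nlinarith [mul_nonneg hδ0.le he0]
  refine (pow_le_pow_left₀ ha h1 s).trans ?_
  rw [← Real.exp_nat_mul]
  apply Real.exp_le_exp.2
  have h2 : 1 / (8 * δ) ≤ δ * e * s := by
    rw [div_le_iff₀ (by positivity)]
    nlinarith
  linarith

lemma norm_lower (τ : Y → Y) (hτ : ∀ y, τ (τ y) = y) (R : X → Y → Prop)
    (hR : ∀ x y, ¬ (R x y ∧ R x (τ y))) (δ : ℝ) (s : ℕ) (hδ0 : 0 < δ) (hδ : δ ≤ 1 / 4)
    (hM1 : (Fintype.card Y : ℝ) * Real.exp (-(δ * s)) ≤ 1 / 2)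
    (hM2 : (Fintype.card Y : ℝ) * Real.exp (-(1 / (8 * δ))) ≤ 1 / 2)
    (p : X → ℝ) (hp0 : ∀ x, 0 ≤ p x) (hp : ∑ x, p x = 1)
    (y0 : Y) (hy0 : ∀ x, p x ≠ 0 → R x y0) :
    ∑ S : Fin s → X, (∏ l, p (S l)) * ∑ y, (bS R δ S y - bS R δ S (τ y)) ^ 2 ≤
      (16 / 3) * ∑ y, ((1 - δ * eps R p y) ^ s - (1 - δ * eps R p (τ y)) ^ s) ^ 2 ∧
    1 ≤ ∑ y, ((1 - δ * eps R p y) ^ s - (1 - δ * eps R p (τ y)) ^ s) ^ 2 := by
  classical
  set B : Y → ℝ := fun y => (1 - δ * eps R p y) ^ s with hB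
  set a : Y → ℝ := fun y => (1 - (2 * δ - δ ^ 2) * eps R p y) ^ s with ha
  have he0 : ∀ y, 0 ≤ eps R p y := eps_nonneg R p hp0 hp
  have he1 : ∀ y, eps R p y ≤ 1 := eps_le_one R p hp0
  have hez : eps R p y0 = 0 := eps_zero R p hp y0 hy0
  have hfac : ∀ y, 0 ≤ 1 - δ * eps R p y := fun y => by
    nlinarith [he0 y, he1 y, mul_nonneg hδ0.le (he0 y)]
  have hB0 : ∀ y, 0 ≤ B y := fun y => pow_nonneg (hfac y) s
  have hafac : ∀ y, 0 ≤ 1 - (2 * δ - δ ^ 2) * eps R p y := fun y => by
    nlinarith [he0 y, he1 y, mul_nonneg hδ0.le (he0 y), sq_nonneg δ]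
  have ha0 : ∀ y, 0 ≤ a y := fun y => pow_nonneg (hafac y) s
  -- the upper bound for the mean of the squared norms
  have hE : ∑ S : Fin s → X, (∏ l, p (S l)) * ∑ y, (bS R δ S y - bS R δ S (τ y)) ^ 2 ≤
      2 * ∑ y, a y := by
    have h1 : ∀ S : Fin s → X, (∏ l, p (S l)) * ∑ y, (bS R δ S y - bS R δ S (τ y)) ^ 2 ≤
        2 * ∑ y, (∏ l, p (S l)) * bS R δ S y ^ 2 := by
      intro S
      have hw : 0 ≤ ∏ l, p (S l) := Finset.prod_nonneg fun l _ => hp0 _
      rw [← Finset.mul_sum, mul_left_comm]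
      apply mul_le_mul_of_nonneg_left _ hw
      have h2 : ∑ y, (bS R δ S y - bS R δ S (τ y)) ^ 2 ≤
          ∑ y, (bS R δ S y ^ 2 + bS R δ S (τ y) ^ 2) := by
        apply Finset.sum_le_sum
        intro y _
        have h3 := bS_nonneg R δ (by linarith) S y
        have h4 := bS_nonneg R δ (by linarith) S (τ y)
        nlinarith [mul_nonneg h3 h4]
      refine h2.trans (le_of_eq ?_)
      rw [Finset.sum_add_distrib, sum_comp_inv τ hτ (fun y => bS R δ S y ^ 2)]
      ring
    refine (Finset.sum_le_sum fun S _ => h1 S).trans (le_of_eq ?_)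
    rw [← Finset.mul_sum, Finset.sum_comm]
    congr 1
    apply Finset.sum_congr rfl
    intro y _
    exact sum_w_bS_sq R δ p hp s y
  -- B y0 = 1
  have hBy0 : B y0 = 1 := by simp [hB, hez]
  have hay0 : a y0 = 1 := by simp [ha, hez]
  have hBq1 : 1 ≤ ∑ y, B y ^ 2 := by
    have := Finset.single_le_sum (f := fun y => B y ^ 2) (fun y _ => sq_nonneg (B y)) (mem_univ y0)
    simpa [hBy0] using this
  have hA1 : 1 ≤ ∑ y, a y := by
    have := Finset.single_le_sum (f := a) (fun y _ => ha0 y) (mem_univ y0)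
    simpa [hay0] using this
  -- lower bound for V
  have hprod : ∀ y, B y * B (τ y) ≤ Real.exp (-(δ * s)) := by
    intro y
    simp only [hB]
    rw [← mul_pow]
    have h1 : (1 - δ * eps R p y) * (1 - δ * eps R p (τ y)) ≤ Real.exp (-δ) := by
      have h2 : 1 - δ * eps R p y ≤ Real.exp (-(δ * eps R p y)) := by
        have := Real.add_one_le_exp (-(δ * eps R p y)); linarith
      have h3 : 1 - δ * eps R p (τ y) ≤ Real.exp (-(δ * eps R p (τ y))) := by
        have := Real.add_one_le_exp (-(δ * eps R p (τ y))); linarith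
      refine (mul_le_mul h2 h3 (hfac _) (Real.exp_pos _).le).trans ?_
      rw [← Real.exp_add]
      apply Real.exp_le_exp.2
      have := eps_add R τ hR p hp0 hp y
      nlinarith
    refine (pow_le_pow_left₀ (mul_nonneg (hfac _) (hfac _)) h1 s).trans (le_of_eq ?_)
    rw [← Real.exp_nat_mul]
    congr 1
    ring
  have hV : ∑ y, B y ^ 2 ≤ ∑ y, (B y - B (τ y)) ^ 2 := by
    have h1 : ∑ y, (B y - B (τ y)) ^ 2 = 2 * ∑ y, B y ^ 2 - 2 * ∑ y, B y * B (τ y) := by
      have h2 : ∀ y, (B y - B (τ y)) ^ 2 = B y ^ 2 + B (τ y) ^ 2 - 2 * (B y * B (τ y)) := by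
        intro y; ring
      rw [Finset.sum_congr rfl (fun y _ => h2 y), Finset.sum_sub_distrib, Finset.sum_add_distrib,
        sum_comp_inv τ hτ (fun y => B y ^ 2), ← Finset.mul_sum]
      ring
    have h3 : ∑ y, B y * B (τ y) ≤ (Fintype.card Y : ℝ) * Real.exp (-(δ * s)) := by
      refine (Finset.sum_le_sum fun y _ => hprod y).trans (le_of_eq ?_)
      rw [Finset.sum_const, Finset.card_univ, nsmul_eq_mul]
    rw [h1]
    linarith
  -- comparison of A and the sum of squares
  have hsplit : ∀ y, a y ≤ (4 / 3) * B y ^ 2 + Real.exp (-(1 / (8 * δ))) := by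
    intro y
    by_cases h : 2 * δ ^ 2 * eps R p y * s ≤ 1 / 4
    · have h1 := sq_ge_of_small δ (eps R p y) s hδ0 hδ (he0 y) (he1 y) h
      have h2 := (Real.exp_pos (-(1 / (8 * δ)))).le
      simp only [ha, hB]
      linarith
    · have h1 := a_small δ (eps R p y) s hδ0 hδ (he0 y) (he1 y) (not_le.1 h)
      have h2 : 0 ≤ (4 / 3) * B y ^ 2 := by positivity
      simp only [ha]
      linarith
  have hAB : ∑ y, a y ≤ (4 / 3) * ∑ y, B y ^ 2 + 1 / 2 := by
    refine (Finset.sum_le_sum fun y _ => hsplit y).trans ?_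
    rw [Finset.sum_add_distrib, ← Finset.mul_sum, Finset.sum_const, Finset.card_univ, nsmul_eq_mul]
    linarith
  change _ ≤ (16 / 3) * ∑ y, (B y - B (τ y)) ^ 2 ∧ 1 ≤ ∑ y, (B y - B (τ y)) ^ 2
  constructor
  · linarith
  · linarith

/-- The matrix form of the theorem: for suitable parameters there are `k` odd functionals without
common zero on the probability vectors supported in one set. -/
theorem exists_functionals [Nonempty X] [Nonempty Y] (τ : Y → Y) (hτ : ∀ y, τ (τ y) = y)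
    (R : X → Y → Prop) (hR : ∀ x y, ¬ (R x y ∧ R x (τ y))) :
    ∃ (δ : ℝ) (s k : ℕ) (ω : Fin k → Finset Y), 0 < k ∧
      (k : ℝ) ≤ 9000 * (Real.log (Fintype.card X) + 1) * (Real.log (Fintype.card Y) + 1) ^ 2 + 14 ∧
      ∀ p : X → ℝ, (∀ x, 0 ≤ p x) → ∑ x, p x = 1 → (∃ y0, ∀ x, p x ≠ 0 → R x y0) →
        ∃ j, ∑ y, sg (ω j) y *
          ((1 - δ * eps R p y) ^ s - (1 - δ * eps R p (τ y)) ^ s) ≠ 0 := by
  classical
  set N := Fintype.card X with hN
  set M := Fintype.card Y with hM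
  have hN1 : 1 ≤ N := Fintype.card_pos
  have hM1 : 1 ≤ M := Fintype.card_pos
  have hN1' : (1 : ℝ) ≤ N := by exact_mod_cast hN1
  have hM1' : (1 : ℝ) ≤ M := by exact_mod_cast hM1
  set L := Real.log M with hL
  have hL0 : 0 ≤ L := Real.log_nonneg hM1'
  set δ : ℝ := 1 / (8 * (L + 1)) with hδd
  have hδ0 : 0 < δ := by positivity
  have hδ1 : δ ≤ 1 / 4 := by
    rw [hδd]
    apply one_div_le_one_div_of_le (by norm_num)
    linarith
  set s : ℕ := ⌈8 * (L + 1) ^ 2⌉₊ with hs
  have hs1 : 8 * (L + 1) ^ 2 ≤ s := Nat.le_ceil _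
  have hs2 : (s : ℝ) < 8 * (L + 1) ^ 2 + 1 := Nat.ceil_lt_add_one (by positivity)
  have hs3 : (s : ℝ) ≤ 9 * (L + 1) ^ 2 := by nlinarith
  have hexp : (M : ℝ) * Real.exp (-(L + 1)) ≤ 1 / 2 := by
    have h1 : Real.exp (-(L + 1)) = (M : ℝ)⁻¹ * Real.exp (-1) := by
      rw [show -(L + 1) = -L + -1 by ring, Real.exp_add, Real.exp_neg, hL,
        Real.exp_log (by linarith)]
    rw [h1, ← mul_assoc, mul_inv_cancel₀ (by linarith), one_mul]
    have h2 : (2 : ℝ) ≤ Real.exp 1 := by
      have := Real.add_one_le_exp (1 : ℝ); linarith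
    rw [Real.exp_neg]
    rw [one_div]
    exact inv_anti₀ (by norm_num) h2
  have hMa : (M : ℝ) * Real.exp (-(δ * s)) ≤ 1 / 2 := by
    refine le_trans ?_ hexp
    apply mul_le_mul_of_nonneg_left _ (by linarith)
    apply Real.exp_le_exp.2
    have : δ * (8 * (L + 1) ^ 2) ≤ δ * s := mul_le_mul_of_nonneg_left hs1 hδ0.le
    have h2 : δ * (8 * (L + 1) ^ 2) = L + 1 := by
      rw [hδd]; field_simp
    linarith
  have hMb : (M : ℝ) * Real.exp (-(1 / (8 * δ))) ≤ 1 / 2 := by
    have : 1 / (8 * δ) = L + 1 := by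
      rw [hδd]; field_simp
    rw [this]; exact hexp
  set k : ℕ := ⌊12 * (82 * s * Real.log N + 1)⌋₊ + 1 with hk
  have hlogN : 0 ≤ Real.log N := Real.log_nonneg hN1'
  have hk0 : 0 < k := Nat.succ_pos _
  have hk1 : 12 * (82 * s * Real.log N + 1) < k := by
    rw [hk]; push_cast; exact Nat.lt_floor_add_one _
  have hk2 : (k : ℝ) ≤ 12 * (82 * s * Real.log N + 1) + 1 := by
    rw [hk]; push_cast
    have := Nat.floor_le (a := 12 * (82 * s * Real.log N + 1)) (by positivity)
    linarith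
  have hcond : (Fintype.card (Fin 82 → Fin s → X) : ℝ) * (2 * Real.exp (-(k / 12 : ℝ))) < 1 := by
    have hc : (Fintype.card (Fin 82 → Fin s → X) : ℝ) = Real.exp (82 * s * Real.log N) := by
      rw [Fintype.card_fun, Fintype.card_fun, Fintype.card_fin, Fintype.card_fin, ← hN]
      push_cast
      rw [show (82 : ℝ) * s * Real.log N = ((s * 82 : ℕ) : ℝ) * Real.log N by push_cast; ring,
        Real.exp_nat_mul, Real.exp_log (by linarith), pow_mul]
    rw [hc]
    have h1 : Real.exp (82 * s * Real.log N) * (2 * Real.exp (-(k / 12 : ℝ))) =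
        2 * Real.exp (82 * s * Real.log N - k / 12) := by
      rw [sub_eq_add_neg, Real.exp_add]; ring
    rw [h1]
    have h2 : Real.exp (82 * s * Real.log N - k / 12) < Real.exp (-1) := by
      apply Real.exp_lt_exp.2
      linarith
    have h3 : (2 : ℝ) ≤ Real.exp 1 := by
      have := Real.add_one_le_exp (1 : ℝ); linarith
    have h4 : Real.exp (-1) ≤ 1 / 2 := by
      rw [Real.exp_neg, one_div]
      exact inv_anti₀ (by norm_num) h3
    linarith
  obtain ⟨ω, hω⟩ := exists_signs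
    (fun (T : Fin 82 → Fin s → X) (y : Y) => ∑ i, (bS R δ (T i) y - bS R δ (T i) (τ y))) k hcond
  refine ⟨δ, s, k, ω, hk0, ?_, ?_⟩
  · refine hk2.trans ?_
    have h1 : (s : ℝ) * Real.log N ≤ 9 * (L + 1) ^ 2 * Real.log N :=
      mul_le_mul_of_nonneg_right hs3 hlogN
    have h2 : 0 ≤ (L + 1) ^ 2 := by positivity
    have h3 : 0 ≤ (L + 1) ^ 2 * Real.log N := by positivity
    nlinarith
  · intro p hp0 hp ⟨y0, hy0⟩
    by_contra hcon
    push Not at hcon
    have h1 := key_inequality τ R δ s 82 k (by norm_num) hk0 ω hω p hp0 hp hcon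
    obtain ⟨h2, h3⟩ := norm_lower τ hτ R hR δ s hδ0 hδ1 hMa hMb p hp0 hp y0 hy0
    push_cast at h1
    linarith

end Pool.Agent.Lib.MP_191c59_gt
end

section

set_option autoImplicit false
set_option linter.unusedSectionVars false

namespace Pool.Agent.Lib.MP_191c59_gt

open Finset

section
variable {P : Type} [Fintype P] [PartialOrder P]

lemma exists_isMin_le (c : P) : ∃ x, IsMin x ∧ x ≤ c := by
  obtain ⟨b, hb, hb'⟩ := Finset.exists_le_minimal (univ : Finset P) (mem_univ c)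
  exact ⟨b, fun y hy => hb'.2 (mem_univ y) hy, hb⟩

lemma exists_isMax_ge (c : P) : ∃ x, IsMax x ∧ c ≤ x := by
  obtain ⟨b, hb, hb'⟩ := Finset.exists_le_maximal (univ : Finset P) (mem_univ c)
  exact ⟨b, fun y hy => hb'.2 (mem_univ y) hy, hb⟩

open scoped Classical in
/-- The uniform distribution on the minimal elements below `c`. -/
noncomputable def unif (c : P) (x : {x : P // IsMin x}) : ℝ :=
  if x.1 ≤ c then (((univ : Finset {x : P // IsMin x}).filter (fun z => z.1 ≤ c)).card : ℝ)⁻¹ else 0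

open scoped Classical in
lemma unif_eq (c : P) (x : {x : P // IsMin x}) :
    unif c x = if x.1 ≤ c then
      (((univ : Finset {x : P // IsMin x}).filter (fun z => z.1 ≤ c)).card : ℝ)⁻¹ else 0 := rfl

lemma unif_nonneg (c : P) (x : {x : P // IsMin x}) : 0 ≤ unif c x := by
  classical
  rw [unif_eq]
  split_ifs
  · positivity
  · exact le_rfl

lemma unif_support (c : P) (x : {x : P // IsMin x}) (h : unif c x ≠ 0) : x.1 ≤ c := by
  classical
  rw [unif_eq] at h
  by_contra h2
  simp [h2] at h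

open scoped Classical in
lemma sum_unif (c : P) : ∑ x : {x : P // IsMin x}, unif c x = 1 := by
  simp_rw [unif_eq c]
  rw [← Finset.sum_filter, Finset.sum_const, nsmul_eq_mul]
  apply mul_inv_cancel₀
  obtain ⟨x, hx, hxc⟩ := exists_isMin_le c
  have : 0 < ((univ : Finset {x : P // IsMin x}).filter (fun z => z.1 ≤ c)).card :=
    Finset.card_pos.2 ⟨⟨x, hx⟩, by simp [hxc]⟩
  exact_mod_cast this.ne'

/-- The averaged point. -/
noncomputable def pt (f : P → ℝ) (x : {x : P // IsMin x}) : ℝ := ∑ c, f c * unif c x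

lemma continuous_pt (x : {x : P // IsMin x}) : Continuous (fun f : P → ℝ => pt f x) := by
  unfold pt
  fun_prop

lemma pt_nonneg (f : P → ℝ) (hf : ∀ c, 0 ≤ f c) (x : {x : P // IsMin x}) : 0 ≤ pt f x :=
  Finset.sum_nonneg fun c _ => mul_nonneg (hf c) (unif_nonneg c x)

open scoped Classical in
lemma sum_pt (f : P → ℝ) (hf : ∑ c, f c = 1) : ∑ x : {x : P // IsMin x}, pt f x = 1 := by
  unfold pt
  rw [Finset.sum_comm]
  simp_rw [← Finset.mul_sum, sum_unif, mul_one]
  exact hf

lemma pt_support (f : P → ℝ) (x : {x : P // IsMin x}) (h : pt f x ≠ 0) :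
    ∃ c, f c ≠ 0 ∧ x.1 ≤ c := by
  unfold pt at h
  obtain ⟨c, _, hc⟩ := Finset.exists_ne_zero_of_sum_ne_zero h
  exact ⟨c, left_ne_zero_of_mul hc, unif_support c x (right_ne_zero_of_mul hc)⟩

end

/-- One half of the theorem: the bound with a square on the second logarithm. -/
theorem main_half (P : Type) [Fintype P] [PartialOrder P] [Nonempty P] (σ : P → P)
    (hmono : ∀ x y, x ≤ y → σ x ≤ σ y) (hinv : ∀ x, σ (σ x) = x)
    (H : ∀ x y : P, IsMin x → IsMax y → ¬ (x ≤ y ∧ σ x ≤ y)) :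
    ∃ n : ℕ, (n : ℝ) ≤ 9000 * (Real.log ({x : P | IsMin x}.ncard : ℝ) + 1) *
        (Real.log ({x : P | IsMax x}.ncard : ℝ) + 1) ^ 2 + 13 ∧
      ∃ g : (P → ℝ) → EuclideanSpace ℝ (Fin (n + 1)),
          ContinuousOn g {f : P → ℝ | (∀ p, 0 ≤ f p) ∧ (∑ p, f p = 1) ∧
              IsChain (· ≤ ·) {p : P | f p ≠ 0}} ∧
          ∀ f ∈ {f : P → ℝ | (∀ p, 0 ≤ f p) ∧ (∑ p, f p = 1) ∧
              IsChain (· ≤ ·) {p : P | f p ≠ 0}},
            ‖g f‖ = 1 ∧ g (fun p => f (σ p)) = -g f := by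
  classical
  have hmono' : ∀ x y, σ x ≤ σ y → x ≤ y := fun x y h => by
    have := hmono _ _ h
    rwa [hinv, hinv] at this
  have hmin : ∀ x, IsMin x → IsMin (σ x) := by
    intro x hx y hy
    have h1 : σ y ≤ x := by have := hmono _ _ hy; rwa [hinv] at this
    have h2 := hx h1
    have := hmono _ _ h2
    rwa [hinv] at this
  have hmax : ∀ x, IsMax x → IsMax (σ x) := by
    intro x hx y hy
    have h1 : x ≤ σ y := by have := hmono _ _ hy; rwa [hinv] at this
    have h2 := hx h1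
    have := hmono _ _ h2
    rwa [hinv] at this
  let X := {x : P // IsMin x}
  let Y := {y : P // IsMax y}
  let τ : Y → Y := fun y => ⟨σ y.1, hmax _ y.2⟩
  let ρ : X → X := fun x => ⟨σ x.1, hmin _ x.2⟩
  have hτ : ∀ y, τ (τ y) = y := fun y => Subtype.ext (hinv _)
  have hρ : ∀ x, ρ (ρ x) = x := fun x => Subtype.ext (hinv _)
  let R : X → Y → Prop := fun x y => x.1 ≤ y.1
  have hR : ∀ x y, ¬ (R x y ∧ R x (τ y)) := by
    intro x y ⟨h1, h2⟩
    refine H x.1 y.1 x.2 y.2 ⟨h1, ?_⟩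
    have := hmono _ _ h2
    simpa [τ, hinv] using this
  obtain ⟨c0⟩ := (inferInstance : Nonempty P)
  have : Nonempty X := by
    obtain ⟨x, hx, _⟩ := exists_isMin_le c0
    exact ⟨⟨x, hx⟩⟩
  have : Nonempty Y := by
    obtain ⟨x, hx, _⟩ := exists_isMax_ge c0
    exact ⟨⟨x, hx⟩⟩
  obtain ⟨δ, s, k, ω, hk0, hkb, hF⟩ := exists_functionals (X := X) (Y := Y) τ hτ R hR
  obtain ⟨n, rfl⟩ : ∃ n, k = n + 1 := ⟨k - 1, by omega⟩
  have hcX : (Fintype.card X : ℝ) = ({x : P | IsMin x}.ncard : ℝ) := by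
    rw [← Nat.card_eq_fintype_card]
    rfl
  have hcY : (Fintype.card Y : ℝ) = ({x : P | IsMax x}.ncard : ℝ) := by
    rw [← Nat.card_eq_fintype_card]
    rfl
  -- the functionals
  let G : Fin (n + 1) → (P → ℝ) → ℝ := fun j f => ∑ y : Y, sg (ω j) y *
          ((1 - δ * eps R (pt f) y) ^ s - (1 - δ * eps R (pt f) (τ y)) ^ s)
  have hGc : ∀ j, Continuous (G j) := by
    intro j
    have he : ∀ y : Y, Continuous (fun f : P → ℝ => eps R (pt f) y) := by
      intro y
      unfold eps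
      refine continuous_const.sub (continuous_finsetSum _ fun x _ => ?_)
      by_cases h : R x y
      · simp only [h, if_true]
        exact continuous_pt x
      · simp only [h, if_false]
        exact continuous_const
    refine continuous_finsetSum _ fun y _ => ?_
    refine continuous_const.mul ?_
    exact ((continuous_const.sub (continuous_const.mul (he y))).pow s).sub
      ((continuous_const.sub (continuous_const.mul (he (τ y)))).pow s)
  -- equivariance
  have hunif : ∀ (c : P) (x : X), unif (σ c) x = unif c (ρ x) := by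
    intro c x
    rw [unif_eq, unif_eq]
    have h1 : x.1 ≤ σ c ↔ (ρ x).1 ≤ c := by
      constructor
      · intro h
        have := hmono _ _ h
        simpa [ρ, hinv] using this
      · intro h
        have := hmono _ _ h
        simpa [ρ, hinv] using this
    have h2 : ((univ : Finset {x : P // IsMin x}).filter (fun z => z.1 ≤ σ c)).card =
        ((univ : Finset {x : P // IsMin x}).filter (fun z => z.1 ≤ c)).card := by
      apply Finset.card_bij (fun z _ => ρ z)
      · intro z hz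
        simp only [mem_filter, mem_univ, true_and] at hz ⊢
        have := hmono _ _ hz
        simpa [ρ, hinv] using this
      · intro z _ z' _ h
        have := congrArg ρ h
        rwa [hρ, hρ] at this
      · intro z hz
        refine ⟨ρ z, ?_, hρ z⟩
        simp only [mem_filter, mem_univ, true_and] at hz ⊢
        exact hmono _ _ hz
    rw [h2]
    by_cases h : x.1 ≤ σ c
    · rw [if_pos h, if_pos (h1.1 h)]
    · rw [if_neg h, if_neg (fun h' => h (h1.2 h'))]
  have hpt : ∀ (f : P → ℝ) (x : X), pt (fun c => f (σ c)) x = pt f (ρ x) := by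
    intro f x
    unfold pt
    have hb : Function.Bijective σ := Function.Involutive.bijective hinv
    rw [← hb.sum_comp (fun c => f c * unif c (ρ x))]
    apply Finset.sum_congr rfl
    intro c _
    rw [hunif c (ρ x), hρ]
  have heps : ∀ (f : P → ℝ) (y : Y), eps R (pt (fun c => f (σ c))) y = eps R (pt f) (τ y) := by
    intro f y
    have e1 : eps R (pt (fun c => f (σ c))) y =
        1 - ∑ x, if R x y then pt (fun c => f (σ c)) x else 0 := rfl
    have e2 : eps R (pt f) (τ y) = 1 - ∑ x, if R x (τ y) then pt f x else 0 := rfl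
    have hb : Function.Bijective ρ := Function.Involutive.bijective hρ
    rw [e1, e2, ← hb.sum_comp (fun x => if R x (τ y) then pt f x else 0)]
    congr 1
    apply Finset.sum_congr rfl
    intro x _
    rw [hpt]
    have h1 : R x y ↔ R (ρ x) (τ y) := ⟨fun h => hmono _ _ h, fun h => hmono' _ _ h⟩
    by_cases h : R x y
    · rw [if_pos h, if_pos (h1.1 h)]
    · rw [if_neg h, if_neg (fun h' => h (h1.2 h'))]
  have hodd : ∀ (f : P → ℝ) j, G j (fun c => f (σ c)) = - G j f := by
    intro f j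
    simp only [G]
    rw [← Finset.sum_neg_distrib]
    apply Finset.sum_congr rfl
    intro y _
    rw [heps f y, heps f (τ y), hτ]
    ring
  -- no common zero
  have hnz : ∀ f ∈ {f : P → ℝ | (∀ p, 0 ≤ f p) ∧ (∑ p, f p = 1) ∧
              IsChain (· ≤ ·) {p : P | f p ≠ 0}}, ∃ j, G j f ≠ 0 := by
    rintro f ⟨hf0, hf1, hchain⟩
    apply hF (pt f) (pt_nonneg f hf0) (sum_pt f hf1)
    -- the top of the support
    have hne : ((univ : Finset P).filter (fun c => f c ≠ 0)).Nonempty := by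
      by_contra h
      rw [Finset.not_nonempty_iff_eq_empty, Finset.filter_eq_empty_iff] at h
      have : ∑ c, f c = 0 := Finset.sum_eq_zero fun c hc => by
        have := h hc; push Not at this; exact this
      rw [hf1] at this
      norm_num at this
    obtain ⟨m, hm⟩ := Finset.exists_maximal hne
    obtain ⟨y0, hy0, hmy⟩ := exists_isMax_ge m
    refine ⟨⟨y0, hy0⟩, ?_⟩
    intro x hx
    obtain ⟨c, hc, hxc⟩ := pt_support f x hx
    have hmem : c ∈ (univ : Finset P).filter (fun c => f c ≠ 0) := by simp [hc]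
    have hm1 : f m ≠ 0 := by
      have := hm.1
      simpa using this
    have hcm : c ≤ m := by
      rcases eq_or_ne c m with h | h
      · exact h.le
      · rcases hchain hc hm1 h with h' | h'
        · exact h'
        · exact hm.2 hmem h'
    exact hxc.trans (hcm.trans hmy)
  let F : (P → ℝ) → EuclideanSpace ℝ (Fin (n + 1)) := fun f => WithLp.toLp 2 (fun j => G j f)
  have hFc : Continuous F := by
    have : Continuous (fun f : P → ℝ => (fun j => G j f)) := continuous_pi hGc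
    exact (PiLp.continuous_toLp 2 _).comp this
  have hFne : ∀ f ∈ {f : P → ℝ | (∀ p, 0 ≤ f p) ∧ (∑ p, f p = 1) ∧
              IsChain (· ≤ ·) {p : P | f p ≠ 0}}, F f ≠ 0 := by
    intro f hf h0
    obtain ⟨j, hj⟩ := hnz f hf
    apply hj
    have := congrArg (fun v : EuclideanSpace ℝ (Fin (n + 1)) => v j) h0
    simpa [F] using this
  have hFodd : ∀ f : P → ℝ, F (fun c => f (σ c)) = - F f := by
    intro f
    ext j
    simp [F, hodd f j]
  refine ⟨n, ?_, fun f => (‖F f‖)⁻¹ • F f, ?_, ?_⟩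
  · rw [← hcX, ← hcY]
    push_cast at hkb
    linarith
  · apply ContinuousOn.fun_smul
    · exact hFc.norm.continuousOn.inv₀ (fun f hf => norm_ne_zero_iff.2 (hFne f hf))
    · exact hFc.continuousOn
  · intro f hf
    constructor
    · rw [norm_smul, norm_inv, norm_norm]
      exact inv_mul_cancel₀ (norm_ne_zero_iff.2 (hFne f hf))
    · simp only [hFodd f, norm_neg, smul_neg]

end Pool.Agent.Lib.MP_191c59_gt
end

section

set_option autoImplicit false
set_option linter.unusedSectionVars false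

namespace Pool.Agent.Lib.MP_191c59_gt.Core

open Finset Real Metric Filter Topology
open scoped RealInnerProductSpace ENNReal

noncomputable section

variable {X Y : Type} [Fintype X] [Fintype Y]

/-- The action of a self-map on vectors. -/
def act (ρ : X → X) (u : EuclideanSpace ℝ X) : EuclideanSpace ℝ X :=
  WithLp.toLp 2 fun i => u (ρ i)

@[simp] lemma act_apply (ρ : X → X) (u : EuclideanSpace ℝ X) (i : X) : act ρ u i = u (ρ i) := rfl

lemma act_sub (ρ : X → X) (u v : EuclideanSpace ℝ X) : act ρ (u - v) = act ρ u - act ρ v := by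
  ext i; simp

lemma continuous_act (ρ : X → X) : Continuous (act ρ) := by
  unfold act
  fun_prop

lemma norm_act (ρ : X → X) (hρ : ∀ x, ρ (ρ x) = x) (u : EuclideanSpace ℝ X) :
    ‖act ρ u‖ = ‖u‖ := by
  rw [EuclideanSpace.norm_eq, EuclideanSpace.norm_eq]
  congr 1
  have hb : Function.Bijective ρ := Function.Involutive.bijective hρ
  exact hb.sum_comp (fun i => ‖u i‖ ^ 2)

section
variable (ρ : X → X) (τ : Y → Y) (hρ : ∀ x, ρ (ρ x) = x) (hτ : ∀ y, τ (τ y) = y)
  (R : X → Y → Prop) (hinv : ∀ x y, R x y → R (ρ x) (τ y))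

include hρ hτ hinv in
lemma inc_act (i : X) (j : Y) : inc R (ρ i) j = inc R i (τ j) := by
  have : R (ρ i) j ↔ R i (τ j) := by
    constructor
    · intro h
      have := hinv _ _ h
      rwa [hρ] at this
    · intro h
      have := hinv _ _ h
      rwa [hτ] at this
  unfold inc
  by_cases h : R (ρ i) j
  · rw [if_pos h, if_pos (this.1 h)]
  · rw [if_neg h, if_neg (fun h' => h (this.2 h'))]

include hρ hτ hinv in
lemma en_act (u : EuclideanSpace ℝ X) (j : Y) : en R (act ρ u) j = en R u (τ j) := by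
  unfold en
  have hb : Function.Bijective ρ := Function.Involutive.bijective hρ
  rw [← hb.sum_comp (fun i => inc R i j * act ρ u i ^ 2)]
  apply Finset.sum_congr rfl
  intro i _
  rw [act_apply, hρ, inc_act ρ τ hρ hτ R hinv]

include hρ hτ hinv in
lemma sm_act (c : ℝ) (u : EuclideanSpace ℝ X) : sm R c (act ρ u) = act τ (sm R c u) := by
  have hb : Function.Bijective τ := Function.Involutive.bijective hτ
  have h1 : pf R (act ρ u) = pf R u := by
    unfold pf
    simp_rw [en_act ρ τ hρ hτ R hinv]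
    exact hb.sum_comp (fun j => Real.exp (en R u j))
  ext j
  rw [act_apply, sm_apply, sm_apply, h1, en_act ρ τ hρ hτ R hinv]

end

/-- The domain. -/
def dom (R : X → Y → Prop) : Set (X → ℝ) :=
  {p | (∀ x, 0 ≤ p x) ∧ ∑ x, p x = 1 ∧ ∃ y, ∀ x, p x ≠ 0 → R x y}

/-- The embedding of the simplex. -/
def emb (b : ℝ) (p : X → ℝ) : EuclideanSpace ℝ X := WithLp.toLp 2 fun x => Real.sqrt (b * p x)

lemma emb_apply (b : ℝ) (p : X → ℝ) (x : X) : emb b p x = Real.sqrt (b * p x) := rfl

lemma continuous_emb (b : ℝ) : Continuous (emb b : (X → ℝ) → EuclideanSpace ℝ X) := by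
  unfold emb
  fun_prop

lemma emb_mem [Nonempty Y] (R : X → Y → Prop) {b c : ℝ} (hb : 0 < b) (hc : 0 < c) {p : X → ℝ}
    (hp : p ∈ dom R) : emb b p ∈ reg R b c := by
  obtain ⟨hp0, hp1, y, hy⟩ := hp
  have hsq : ∀ x, emb b p x ^ 2 = b * p x := by
    intro x
    rw [emb_apply, Real.sq_sqrt (mul_nonneg hb.le (hp0 x))]
  constructor
  · simp_rw [hsq]
    rw [← Finset.mul_sum, hp1, mul_one]
  · have hdiv : (fun x => emb b p x ^ 2 / b) = p := by
      funext x
      rw [hsq, mul_div_cancel_left₀ _ hb.ne']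
    have hen : en R (emb b p) y = b := by
      unfold en
      have : ∀ x, inc R x y * emb b p x ^ 2 = b * p x := by
        intro x
        rw [hsq]
        by_cases hx : p x = 0
        · rw [hx]; ring
        · have := hy x hx
          unfold inc
          rw [if_pos this, one_mul]
      simp_rw [this]
      rw [← Finset.mul_sum, hp1, mul_one]
    have h1 : Real.exp b ≤ pf R (emb b p) := by
      unfold pf
      calc Real.exp b = Real.exp (en R (emb b p) y) := by rw [hen]
        _ ≤ ∑ j, Real.exp (en R (emb b p) j) :=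
          Finset.single_le_sum (f := fun j => Real.exp (en R (emb b p) j))
            (fun _ _ => (Real.exp_pos _).le) (Finset.mem_univ y)
    have h2 : b ≤ Real.log (pf R (emb b p)) := by
      rw [Real.le_log_iff_exp_le (pf_pos R _)]
      exact h1
    unfold pot
    rw [hdiv]
    have h3 := ent_nonneg hp0 hp1
    have h4 : 1 ≤ b⁻¹ * Real.log (pf R (emb b p)) := by
      rw [← inv_mul_cancel₀ hb.ne']
      exact mul_le_mul_of_nonneg_left h2 (inv_pos.2 hb).le
    have h5 : 0 ≤ c⁻¹ * ent p := mul_nonneg (inv_pos.2 hc).le h3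
    linarith

/-- Symmetric points are excluded from the region. -/
lemma not_symm [Nonempty Y] (ρ : X → X) (hρ : ∀ x, ρ (ρ x) = x) (R : X → Y → Prop)
    (hR : ∀ x y, ¬ (R x y ∧ R (ρ x) y)) {b c : ℝ} (hb : 0 < b) (hc : 0 < c)
    (hbc : b * Real.log (Fintype.card X) / c + Real.log (Fintype.card Y) < b / 2)
    {u : EuclideanSpace ℝ X} (hu : u ∈ reg R b c) : u - act ρ u ≠ 0 := by
  intro h
  have hsymm : ∀ i, u (ρ i) = u i := by
    intro i
    have := congrArg (fun v : EuclideanSpace ℝ X => v i) h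
    simp at this
    linarith
  have hen : ∀ y, en R u y ≤ b / 2 := by
    intro y
    have h1 : en R u y = ∑ i, inc R (ρ i) y * u i ^ 2 := by
      unfold en
      have hbj : Function.Bijective ρ := Function.Involutive.bijective hρ
      rw [← hbj.sum_comp (fun i => inc R i y * u i ^ 2)]
      apply Finset.sum_congr rfl
      intro i _
      rw [hsymm]
    have h2 : en R u y + en R u y ≤ b := by
      nth_rewrite 2 [h1]
      unfold en
      rw [← Finset.sum_add_distrib, ← hu.1]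
      apply Finset.sum_le_sum
      intro i _
      have h3 : inc R i y + inc R (ρ i) y ≤ 1 := by
        have := hR i y
        unfold inc
        by_cases h1 : R i y
        · have h2 : ¬ R (ρ i) y := fun h2 => this ⟨h1, h2⟩
          rw [if_pos h1, if_neg h2]; norm_num
        · rw [if_neg h1]; split_ifs <;> norm_num
      nlinarith [sq_nonneg (u i)]
    linarith
  have h1 := defect hb hc hu
  have h2 : ∑ j, gm R u j * en R u j ≤ b / 2 := by
    calc ∑ j, gm R u j * en R u j ≤ ∑ j, gm R u j * (b / 2) :=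
          Finset.sum_le_sum fun j _ => mul_le_mul_of_nonneg_left (hen j) (gm_nonneg R u j)
      _ = b / 2 := by rw [← Finset.sum_mul, sum_gm, one_mul]
  linarith

/-- The core theorem: an odd map to a sphere of dimension `O(log |X| log |Y|)`. -/
theorem core (ρ : X → X) (τ : Y → Y) (hρ : ∀ x, ρ (ρ x) = x) (hτ : ∀ y, τ (τ y) = y)
    (R : X → Y → Prop) (hinv : ∀ x y, R x y → R (ρ x) (τ y))
    (hR : ∀ x y, ¬ (R x y ∧ R (ρ x) y)) (hN : 2 ≤ Fintype.card X) (hM : 2 ≤ Fintype.card Y) :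
    ∃ (k : ℕ) (F : (X → ℝ) → (Fin (k + 1) → ℝ)),
      (k : ℝ) ≤ 3000 * Real.log (Fintype.card X) * Real.log (Fintype.card Y) ∧
      Continuous F ∧ (∀ p ∈ dom R, F p ≠ 0) ∧ (∀ p, F (fun x => p (ρ x)) = - F p) := by
  classical
  have : Nonempty X := Fintype.card_pos_iff.1 (by omega)
  have : Nonempty Y := Fintype.card_pos_iff.1 (by omega)
  set a := Real.log (Fintype.card X) with ha
  set b := Real.log (Fintype.card Y) with hb
  have hl2 := Real.log_two_gt_d9
  have ha2 : Real.log 2 ≤ a := Real.log_le_log (by norm_num) (by exact_mod_cast hN)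
  have hb2 : Real.log 2 ≤ b := Real.log_le_log (by norm_num) (by exact_mod_cast hM)
  have ha0 : 0 < a := by linarith
  have hb0 : 0 < b := by linarith
  set β := 5 * b with hβ
  set γ := 5 * a with hγ
  have hβ0 : 0 < β := by positivity
  have hγ0 : 0 < γ := by positivity
  set σ0 := 10 * (a * b) with hσ
  have hσ0 : 0 < σ0 := by positivity
  set K := reg R β γ with hK
  set L := reg (flip R) γ β with hL
  set f := sm R γ with hf
  set g := sm (flip R) β with hg
  have hfK : ∀ x ∈ K, f x ∈ L := fun x hx => sm_mem_reg hβ0 hγ0 hx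
  have hgL : ∀ y ∈ L, g y ∈ K := fun y hy => sm_mem_reg (R := flip R) hγ0 hβ0 hy
  obtain ⟨δ1, hδ1, hc1⟩ := local_count f (dm R γ) K (isCompact_reg R β γ) hσ0
    (fun w _ j => hasStrictFDerivAt_sm γ j w)
    (fun w hw => (dm_hs hβ0 hγ0 hw).trans (le_of_eq (by rw [← ha, ← hb, hβ, hγ, hσ]; ring)))
  obtain ⟨δ2, hδ2, hc2⟩ := local_count g (dm (flip R) β) L (isCompact_reg (flip R) γ β) hσ0
    (fun w _ j => hasStrictFDerivAt_sm β j w)
    (fun w hw => (dm_hs hγ0 hβ0 hw).trans (le_of_eq (by rw [← ha, ← hb, hβ, hγ, hσ]; ring)))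
  set N : ℕ := ⌊4 / 3 * Real.exp (128 * σ0)⌋₊ with hNdef
  set δ := min δ1 δ2 with hδ
  have hδ0 : 0 < δ := lt_min hδ1 hδ2
  obtain ⟨n0, hn0⟩ := cover_iter f g K L N δ hδ0 hfK hgL (isCompact_reg R β γ)
    (fun w0 hw0 r hr hrδ S hS1 hS2 => Nat.le_floor
      (hc1 w0 hw0 r hr (hrδ.trans (min_le_left _ _)) S hS1 hS2))
    (fun w0 hw0 r hr hrδ S hS1 hS2 => Nat.le_floor
      (hc2 w0 hw0 r hr (hrδ.trans (min_le_right _ _)) S hS1 hS2))
  -- the dimension
  set kk : ℕ := ⌈(128 * σ0 + 1) / Real.log 2⌉₊ with hkk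
  have hkkpos : 0 < kk := Nat.ceil_pos.2 (by positivity)
  obtain ⟨k, hk⟩ : ∃ k, kk = k + 1 := ⟨kk - 1, by omega⟩
  have hNlt : (N : ℝ) < 2 ^ kk := by
    have h1 : (N : ℝ) ≤ 4 / 3 * Real.exp (128 * σ0) := Nat.floor_le (by positivity)
    have h2 : (128 * σ0 + 1) / Real.log 2 ≤ kk := Nat.le_ceil _
    rw [div_le_iff₀ (by linarith)] at h2
    have h3 : (2 : ℝ) ^ kk = Real.exp (kk * Real.log 2) := by
      rw [mul_comm, Real.exp_mul, Real.exp_log (by norm_num), Real.rpow_natCast]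
    rw [h3]
    have h4 : Real.exp (128 * σ0 + 1) ≤ Real.exp (kk * Real.log 2) := Real.exp_le_exp.2 h2
    rw [Real.exp_add] at h4
    have h5 : (4 : ℝ) / 3 < Real.exp 1 := by
      have := Real.exp_one_gt_d9
      linarith
    have h6 := Real.exp_pos (128 * σ0)
    nlinarith
  -- lower bound for the odd part
  set om : EuclideanSpace ℝ X → EuclideanSpace ℝ X := fun u => u - act ρ u with hom
  have homc : Continuous om := continuous_id.sub (continuous_act ρ)
  have hbc : β * a / γ + b < β / 2 := by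
    have : β * a / γ = b := by rw [hβ, hγ]; field_simp
    rw [this, hβ]; linarith
  obtain ⟨c0, hc0, hc0K⟩ : ∃ c0 > 0, ∀ u ∈ K, c0 ≤ ‖om u‖ := by
    rcases K.eq_empty_or_nonempty with h | h
    · exact ⟨1, one_pos, fun u hu => by rw [h] at hu; exact absurd hu (Set.notMem_empty u)⟩
    · obtain ⟨u0, hu0, hmin⟩ := (isCompact_reg R β γ).exists_isMinOn h
        (continuous_norm.comp homc).continuousOn
      refine ⟨‖om u0‖, ?_, fun u hu => hmin hu⟩
      exact norm_pos_iff.2 (not_symm ρ hρ R hR hβ0 hγ0 hbc hu0)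
  obtain ⟨Λ, hΛ0, hΛ⟩ := exists_radius X
  -- choose the number of iterations
  obtain ⟨m, hm⟩ : ∃ m : ℕ, (2 * (2 * Λ * (δ * (1 / 4) ^ m)) / c0) ^ kk *
      (((N ^ 2) ^ m * n0 : ℕ) : ℝ) < 1 := by
    have h1 : ((N : ℝ) ^ 2 / 4 ^ kk) < 1 := by
      rw [div_lt_one (by positivity)]
      have : (4 : ℝ) ^ kk = (2 ^ kk) ^ 2 := by
        rw [← pow_mul, mul_comm, pow_mul]; norm_num
      rw [this]
      exact pow_lt_pow_left₀ hNlt (Nat.cast_nonneg _) (by norm_num)
    have h2 : Tendsto (fun m : ℕ => (4 * Λ * δ / c0) ^ kk * n0 * ((N : ℝ) ^ 2 / 4 ^ kk) ^ m) atTop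
        (𝓝 ((4 * Λ * δ / c0) ^ kk * n0 * 0)) :=
      (tendsto_pow_atTop_nhds_zero_of_lt_one (by positivity) h1).const_mul _
    rw [mul_zero] at h2
    obtain ⟨m, hm⟩ := ((tendsto_order.1 h2).2 1 one_pos).exists
    refine ⟨m, lt_of_eq_of_lt ?_ hm⟩
    push_cast
    have e1 : ((N : ℝ) ^ 2 / 4 ^ kk) ^ m = ((N : ℝ) ^ 2) ^ m * ((1 / 4 : ℝ) ^ m) ^ kk := by
      rw [div_pow, div_eq_mul_inv, ← pow_mul (4 : ℝ) kk m, mul_comm kk m, pow_mul (4 : ℝ) m kk,
        ← inv_pow, ← inv_pow, one_div]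
    rw [e1, show 2 * (2 * Λ * (δ * (1 / 4) ^ m)) / c0 = (4 * Λ * δ / c0) * (1 / 4) ^ m by ring,
      mul_pow]
    ring
  obtain ⟨C, hCcard, hCK, hCcov⟩ := hn0 m
  set r := δ * (1 / 4 : ℝ) ^ m with hr
  have hr0 : 0 < r := by positivity
  have hκ0 : 0 < 2 * Λ * r := by positivity
  obtain ⟨l, hl, hlbad⟩ := select hΛ0 hΛ hc0 hκ0 kk (C.image om) (by
    intro w hw
    rw [Finset.mem_image] at hw
    obtain ⟨c, hc, rfl⟩ := hw
    exact hc0K c (hCK c hc))
  have hempty : (C.image om).filter (fun w => ∀ t, |⟪w, l t⟫| ≤ 2 * Λ * r) = ∅ := by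
    rw [← Finset.card_eq_zero]
    have h1 : (((C.image om).filter (fun w => ∀ t, |⟪w, l t⟫| ≤ 2 * Λ * r)).card : ℝ) < 1 := by
      refine lt_of_le_of_lt hlbad (lt_of_le_of_lt ?_ hm)
      apply mul_le_mul_of_nonneg_left _ (by positivity)
      exact_mod_cast Finset.card_image_le.trans hCcard
    have h2 : ((C.image om).filter (fun w => ∀ t, |⟪w, l t⟫| ≤ 2 * Λ * r)).card < 1 := by
      exact_mod_cast h1
    omega
  have homsub : ∀ u v, ‖om u - om v‖ ≤ 2 * ‖u - v‖ := by
    intro u v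
    have : om u - om v = (u - v) - act ρ (u - v) := by
      simp only [hom]; rw [act_sub]; abel
    rw [this]
    calc ‖(u - v) - act ρ (u - v)‖ ≤ ‖u - v‖ + ‖act ρ (u - v)‖ := norm_sub_le _ _
      _ = 2 * ‖u - v‖ := by rw [norm_act ρ hρ]; ring
  -- the map
  set T := g ∘ f with hT
  have hTact : ∀ u, T (act ρ u) = act ρ (T u) := by
    intro u
    simp only [hT, Function.comp, hf, hg]
    rw [sm_act ρ τ hρ hτ R hinv]
    exact sm_act τ ρ hτ hρ (flip R) (fun y x h => hinv x y h) β (sm R γ u)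
  have hTm : ∀ (m : ℕ) u, T^[m] (act ρ u) = act ρ (T^[m] u) := by
    intro m
    induction m with
    | zero => intro u; rfl
    | succ m ih =>
      intro u
      rw [Function.iterate_succ_apply, Function.iterate_succ_apply, hTact, ih]
  have hTc : Continuous T := (continuous_sm (flip R) β).comp (continuous_sm R γ)
  have hTmc : Continuous (T^[m]) := hTc.iterate m
  set F : (X → ℝ) → (Fin (k + 1) → ℝ) := fun p t =>
    ⟪om (T^[m] (emb β p)), l (Fin.cast hk.symm t)⟫ with hF
  refine ⟨k, F, ?_, ?_, ?_, ?_⟩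
  · have h1 : (kk : ℝ) < (128 * σ0 + 1) / Real.log 2 + 1 := Nat.ceil_lt_add_one (by positivity)
    rw [hk] at h1
    push_cast at h1
    have h2 : (128 * σ0 + 1) / Real.log 2 ≤ 1.45 * (128 * σ0 + 1) := by
      rw [div_le_iff₀ (by linarith)]
      nlinarith
    have h3 : (0.69 : ℝ) * 0.69 ≤ a * b :=
      mul_le_mul (by linarith) (by linarith) (by norm_num) ha0.le
    rw [hσ] at h2 h1
    nlinarith
  · apply continuous_pi
    intro t
    exact (homc.comp (hTmc.comp (continuous_emb β))).inner continuous_const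
  · intro p hp hF0
    have hmem := emb_mem R hβ0 hγ0 hp
    obtain ⟨c, hc, hdist⟩ := hCcov _ hmem
    have hin : om c ∈ (C.image om).filter (fun w => ∀ t, |⟪w, l t⟫| ≤ 2 * Λ * r) := by
      rw [Finset.mem_filter]
      refine ⟨Finset.mem_image_of_mem _ hc, fun t => ?_⟩
      have h1 : ⟪om (T^[m] (emb β p)), l t⟫ = 0 := by
        have := congrFun hF0 (Fin.cast hk t)
        simpa [hF] using this
      have h2 : ⟪om c, l t⟫ = -⟪om (T^[m] (emb β p)) - om c, l t⟫ := by
        have h3 := inner_sub_left (𝕜 := ℝ) (om (T^[m] (emb β p))) (om c) (l t)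
        rw [h1] at h3
        linarith
      rw [h2, abs_neg]
      calc |⟪om (T^[m] (emb β p)) - om c, l t⟫|
          ≤ ‖om (T^[m] (emb β p)) - om c‖ * ‖l t‖ := abs_real_inner_le_norm _ _
        _ ≤ (2 * r) * Λ := by
          apply mul_le_mul _ (hl t) (norm_nonneg _) (by positivity)
          refine (homsub _ _).trans ?_
          rw [← dist_eq_norm]
          linarith
        _ = 2 * Λ * r := by ring
    rw [hempty] at hin
    exact absurd hin (Finset.notMem_empty _)
  · intro p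
    funext t
    have h1 : emb β (fun x => p (ρ x)) = act ρ (emb β p) := rfl
    have h2 : om (act ρ (T^[m] (emb β p))) = - om (T^[m] (emb β p)) := by
      ext i
      simp [hom, hρ]
    simp only [hF, h1, hTm, h2, inner_neg_left, Pi.neg_apply]

end

end Pool.Agent.Lib.MP_191c59_gt.Core
end

section

set_option autoImplicit false
set_option linter.unusedSectionVars false

namespace Pool.Agent.Lib.MP_191c59_gt.Core

open Finset

lemma two_le_ncard_of_pair {P : Type} [Finite P] (s : Set P) (a b : P) (ha : a ∈ s) (hb : b ∈ s)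
    (hab : a ≠ b) : 2 ≤ s.ncard :=
  (Set.one_lt_ncard (Set.toFinite s)).2 ⟨a, ha, b, hb, hab⟩

/-- The full bound, for posets with a monotone involution. -/
theorem main_full (P : Type) [Fintype P] [PartialOrder P] [Nonempty P] (σ : P → P)
    (hmono : ∀ x y, x ≤ y → σ x ≤ σ y) (hinv : ∀ x, σ (σ x) = x)
    (hfree : ∀ x, σ x ≠ x)
    (H : ∀ x y : P, ¬ (x ≤ y ∧ σ x ≤ y)) :
    ∃ n : ℕ, (n : ℝ) ≤ 3000 * Real.log ({x : P | IsMin x}.ncard : ℝ) *
        Real.log ({x : P | IsMax x}.ncard : ℝ) ∧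
      ∃ g : (P → ℝ) → EuclideanSpace ℝ (Fin (n + 1)),
          ContinuousOn g {f : P → ℝ | (∀ p, 0 ≤ f p) ∧ (∑ p, f p = 1) ∧
              IsChain (· ≤ ·) {p : P | f p ≠ 0}} ∧
          ∀ f ∈ {f : P → ℝ | (∀ p, 0 ≤ f p) ∧ (∑ p, f p = 1) ∧
              IsChain (· ≤ ·) {p : P | f p ≠ 0}},
            ‖g f‖ = 1 ∧ g (fun p => f (σ p)) = -g f := by
  classical
  have hmono' : ∀ x y, σ x ≤ σ y → x ≤ y := fun x y h => by
    have := hmono _ _ h
    rwa [hinv, hinv] at this
  have hmin : ∀ x, IsMin x → IsMin (σ x) := by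
    intro x hx y hy
    have h1 : σ y ≤ x := by have := hmono _ _ hy; rwa [hinv] at this
    have h2 := hx h1
    have := hmono _ _ h2
    rwa [hinv] at this
  have hmax : ∀ x, IsMax x → IsMax (σ x) := by
    intro x hx y hy
    have h1 : x ≤ σ y := by have := hmono _ _ hy; rwa [hinv] at this
    have h2 := hx h1
    have := hmono _ _ h2
    rwa [hinv] at this
  let X := {x : P // IsMin x}
  let Y := {y : P // IsMax y}
  let τ : Y → Y := fun y => ⟨σ y.1, hmax _ y.2⟩
  let ρ : X → X := fun x => ⟨σ x.1, hmin _ x.2⟩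
  have hτ : ∀ y, τ (τ y) = y := fun y => Subtype.ext (hinv _)
  have hρ : ∀ x, ρ (ρ x) = x := fun x => Subtype.ext (hinv _)
  let R : X → Y → Prop := fun x y => x.1 ≤ y.1
  have hRinv : ∀ x y, R x y → R (ρ x) (τ y) := fun x y h => hmono _ _ h
  have hR : ∀ x y, ¬ (R x y ∧ R (ρ x) y) := fun x y h => H x.1 y.1 h
  obtain ⟨c0⟩ := (inferInstance : Nonempty P)
  have hcX : Fintype.card X = {x : P | IsMin x}.ncard := by
    rw [← Nat.card_eq_fintype_card]
    rfl
  have hcY : Fintype.card Y = {x : P | IsMax x}.ncard := by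
    rw [← Nat.card_eq_fintype_card]
    rfl
  have hN : 2 ≤ Fintype.card X := by
    rw [hcX]
    obtain ⟨x, hx, _⟩ := exists_isMin_le c0
    exact two_le_ncard_of_pair _ x (σ x) hx (hmin x hx) (fun h => hfree x h.symm)
  have hM : 2 ≤ Fintype.card Y := by
    rw [hcY]
    obtain ⟨x, hx, _⟩ := exists_isMax_ge c0
    exact two_le_ncard_of_pair _ x (σ x) hx (hmax x hx) (fun h => hfree x h.symm)
  obtain ⟨n, G0, hn, hG0c, hG0ne, hG0odd⟩ := core ρ τ hρ hτ R hRinv hR hN hM
  -- equivariance of the averaged point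
  have hunif : ∀ (c : P) (x : X), unif (σ c) x = unif c (ρ x) := by
    intro c x
    rw [unif_eq, unif_eq]
    have h1 : x.1 ≤ σ c ↔ (ρ x).1 ≤ c := by
      constructor
      · intro h
        have := hmono _ _ h
        simpa [ρ, hinv] using this
      · intro h
        have := hmono _ _ h
        simpa [ρ, hinv] using this
    have h2 : ((univ : Finset {x : P // IsMin x}).filter (fun z => z.1 ≤ σ c)).card =
        ((univ : Finset {x : P // IsMin x}).filter (fun z => z.1 ≤ c)).card := by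
      apply Finset.card_bij (fun z _ => ρ z)
      · intro z hz
        simp only [mem_filter, mem_univ, true_and] at hz ⊢
        have := hmono _ _ hz
        simpa [ρ, hinv] using this
      · intro z _ z' _ h
        have := congrArg ρ h
        rwa [hρ, hρ] at this
      · intro z hz
        refine ⟨ρ z, ?_, hρ z⟩
        simp only [mem_filter, mem_univ, true_and] at hz ⊢
        exact hmono _ _ hz
    rw [h2]
    by_cases h : x.1 ≤ σ c
    · rw [if_pos h, if_pos (h1.1 h)]
    · rw [if_neg h, if_neg (fun h' => h (h1.2 h'))]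
  have hpt : ∀ (f : P → ℝ), pt (fun c => f (σ c)) = fun x => pt f (ρ x) := by
    intro f
    funext x
    unfold pt
    have hb : Function.Bijective σ := Function.Involutive.bijective hinv
    rw [← hb.sum_comp (fun c => f c * unif c (ρ x))]
    apply Finset.sum_congr rfl
    intro c _
    rw [hunif c (ρ x), hρ]
  have hdom : ∀ f ∈ {f : P → ℝ | (∀ p, 0 ≤ f p) ∧ (∑ p, f p = 1) ∧
              IsChain (· ≤ ·) {p : P | f p ≠ 0}}, pt f ∈ dom R := by
    rintro f ⟨hf0, hf1, hchain⟩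
    refine ⟨pt_nonneg f hf0, sum_pt f hf1, ?_⟩
    -- the top of the support
    have hne : ((univ : Finset P).filter (fun c => f c ≠ 0)).Nonempty := by
      by_contra h
      rw [Finset.not_nonempty_iff_eq_empty, Finset.filter_eq_empty_iff] at h
      have : ∑ c, f c = 0 := Finset.sum_eq_zero fun c hc => by
        have := h hc; push Not at this; exact this
      rw [hf1] at this
      norm_num at this
    obtain ⟨m, hm⟩ := Finset.exists_maximal hne
    obtain ⟨y0, hy0, hmy⟩ := exists_isMax_ge m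
    refine ⟨⟨y0, hy0⟩, ?_⟩
    intro x hx
    obtain ⟨c, hc, hxc⟩ := pt_support f x hx
    have hmem : c ∈ (univ : Finset P).filter (fun c => f c ≠ 0) := by simp [hc]
    have hm1 : f m ≠ 0 := by
      have := hm.1
      simpa using this
    have hcm : c ≤ m := by
      rcases eq_or_ne c m with h | h
      · exact h.le
      · rcases hchain hc hm1 h with h' | h'
        · exact h'
        · exact hm.2 hmem h'
    exact hxc.trans (hcm.trans hmy)
  let F : (P → ℝ) → EuclideanSpace ℝ (Fin (n + 1)) := fun f => WithLp.toLp 2 (G0 (pt f))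
  have hFc : Continuous F := by
    have : Continuous (fun f : P → ℝ => G0 (pt f)) :=
      hG0c.comp (continuous_pi fun x => continuous_pt x)
    exact (PiLp.continuous_toLp 2 _).comp this
  have hFne : ∀ f ∈ {f : P → ℝ | (∀ p, 0 ≤ f p) ∧ (∑ p, f p = 1) ∧
              IsChain (· ≤ ·) {p : P | f p ≠ 0}}, F f ≠ 0 := by
    intro f hf h0
    apply hG0ne (pt f) (hdom f hf)
    funext j
    have := congrArg (fun v : EuclideanSpace ℝ (Fin (n + 1)) => v j) h0
    simpa [F] using this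
  have hFodd : ∀ f : P → ℝ, F (fun c => f (σ c)) = - F f := by
    intro f
    ext j
    have := congrFun (hG0odd (pt f)) j
    simp only [F, hpt f]
    simpa using this
  refine ⟨n, ?_, fun f => (‖F f‖)⁻¹ • F f, ?_, ?_⟩
  · rw [hcX, hcY] at hn
    exact hn
  · apply ContinuousOn.fun_smul
    · exact hFc.norm.continuousOn.inv₀ (fun f hf => norm_ne_zero_iff.2 (hFne f hf))
    · exact hFc.continuousOn
  · intro f hf
    constructor
    · rw [norm_smul, norm_inv, norm_norm]
      exact inv_mul_cancel₀ (norm_ne_zero_iff.2 (hFne f hf))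
    · simp only [hFodd f, norm_neg, smul_neg]

end Pool.Agent.Lib.MP_191c59_gt.Core
end
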